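import Pool.Agent.Helper693.Nef.Summed
import Pool.Agent.Helper116.RR.Defs

set_option autoImplicit false

open Polynomial

namespace Nef

variable {K : Type*} [Field K]

theorem isMo_vord {k : Type*} [Field k] [Algebra k K] {ι : Type*} [Fintype ι] (P : FF.Place k K)
    (x : ι → K) (hx : ∃ i, x i ≠ 0) : IsMo P x (H116RR.vord P x) := by
  classical
  obtain ⟨i0, hi0⟩ := hx
  have hne : (Finset.univ.filter (fun a => x a ≠ 0)).Nonempty := ⟨i0, by simp [hi0]⟩
  have h : H116RR.vord P x =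
      (Finset.univ.filter (fun a => x a ≠ 0)).inf' hne (fun a => P.ord (x a)) := by
    unfold H116RR.vord
    rw [dif_pos]
  rw [h]
  refine ⟨fun i hi => Finset.inf'_le _ (by simp [hi]), ?_⟩
  obtain ⟨i, hi, h2⟩ := Finset.exists_mem_eq_inf' hne (fun a => P.ord (x a))
  rw [Finset.mem_filter] at hi
  exact ⟨i, hi.2, h2⟩

theorem isMo_iInf {k : Type*} [Field k] [Algebra k K] {ι : Type*} [Finite ι] (P : FF.Place k K)
    (x : ι → K) (hx : ∃ i, x i ≠ 0) : IsMo P x (⨅ i : {i : ι // x i ≠ 0}, P.ord (x i)) := by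
  obtain ⟨i0, hi0⟩ := hx
  have : Nonempty {i : ι // x i ≠ 0} := ⟨⟨i0, hi0⟩⟩
  refine ⟨fun i hi => ?_, ?_⟩
  · exact ciInf_le (Set.finite_range _).bddBelow (⟨i, hi⟩ : {i : ι // x i ≠ 0})
  · obtain ⟨i, hi⟩ := exists_eq_ciInf_of_finite (f := fun i : {i : ι // x i ≠ 0} => P.ord (x i))
    exact ⟨i.1, i.2, hi.symm⟩

theorem IsMo.unique {k : Type*} [Field k] [Algebra k K] {ι : Type*} {P : FF.Place k K}
    {x : ι → K} {m n : ℤ} (h1 : IsMo P x m) (h2 : IsMo P x n) : m = n := by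
  obtain ⟨a, i, hi, ha⟩ := h1
  obtain ⟨b, j, hj, hb⟩ := h2
  have := a j hj
  have := b i hi
  omega

/-- The summed inequality in terms of heights. -/
theorem summed_hgt {k : Type*} [Field k] [IsAlgClosed k] [Algebra k K] [FF.IsFF k K]
    {p e : ℕ} [Fact p.Prime] [CharP K p] (hp : p = 3 * e + 1) (he : 2 ≤ e)
    (a : Fin 4 → K) (z : Fin 4 → Fin 4 → K) (hinj : Function.Injective a)
    (hcube : ∀ i j, (z i j) ^ 3 = a i - a j) (hanti : ∀ i j, z j i = - z i j)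
    (s t : K) (hst : ¬ (s = 0 ∧ t = 0)) :
    -13 * H116RR.hgt k (fun σ : Equiv.Perm (Fin 4) => z (σ 0) (σ 1)) ≤
      p * (H116RR.hgt k (fun σ : Equiv.Perm (Fin 4) => z (σ 0) (σ 1)) -
        H116RR.hgt k (fun σ : Equiv.Perm (Fin 4) => z (σ 0) (σ 1) ^ 2 * z (σ 2) (σ 3)) +
        H116RR.hgt k (fun σ : Equiv.Perm (Fin 4) => (s - t * a (σ 0)) *
          (z (σ 1) (σ 2) ^ 2 * z (σ 2) (σ 3) * z (σ 3) (σ 1)))) := by
  have hz : ∀ i j, i ≠ j → z i j ≠ 0 := by
    intro i j hij h0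
    have h := hcube i j
    rw [h0, zero_pow (by norm_num)] at h
    exact hij (hinj (sub_eq_zero.1 h.symm))
  have h1 : ∃ i, s - t * a i ≠ 0 := by
    by_contra hc
    push Not at hc
    have h2 : t * (a 0 - a 1) = 0 := by linear_combination hc 1 - hc 0
    have h3 : t = 0 := by
      rcases mul_eq_zero.1 h2 with h | h
      · exact h
      · exact absurd (hinj (sub_eq_zero.1 h)) (by decide)
    have h4 := hc 0
    rw [h3, zero_mul, sub_zero] at h4
    exact hst ⟨h4, h3⟩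
  have h := summed (k := k) (p := p) hp he a z hinj hcube hanti s t hst _ _ _
    (fun P => isMo_vord P _ ⟨Equiv.refl _, hz 0 1 (by decide)⟩)
    (fun P => isMo_vord P _ ⟨Equiv.refl _, mul_ne_zero (pow_ne_zero 2 (hz 0 1 (by decide)))
      (hz 2 3 (by decide))⟩)
    (fun P => isMo_vord P _ (by
      obtain ⟨i, hi⟩ := h1
      obtain ⟨j, hij⟩ : ∃ j : Fin 4, i ≠ j := (by decide : ∀ i : Fin 4, ∃ j : Fin 4, i ≠ j) i
      obtain ⟨σ, hσ, -⟩ := perm2 i j hij
      refine ⟨σ, ?_⟩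
      rw [hσ]
      exact mul_ne_zero hi (mul_ne_zero (mul_ne_zero (pow_ne_zero 2 (hz _ _ (sdist σ _ _ (by decide))))
        (hz _ _ (sdist σ _ _ (by decide)))) (hz _ _ (sdist σ _ _ (by decide))))))
  rw [finsum_neg_distrib, finsum_neg_distrib, finsum_neg_distrib] at h
  exact h

end Nef
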