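import Pool.Agent.Helper386.FF.Div

/-! Zeros, poles and the product formula for function fields that are separable over some
rational function field (any characteristic). -/

set_option autoImplicit false
set_option linter.all false
set_option linter.overlappingInstances false

open Module IsDedekindDomain IntermediateField

namespace FF

section
variable {k K : Type*} [Field k] [Field K] [Algebra k K]

theorem zeros' [h : IsFF k K] {f : K} (hf : Transcendental k f) (hsep : Algebra.IsSeparable k⟮f⟯ K) :
    ∃ S : Finset (Place k K), (∀ w, w ∈ S ↔ 0 < w.ord f) ∧ (∀ w ∈ S, 0 < w.deg) ∧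
      ∑ w ∈ S, (w.ord f).toNat * w.deg = finrank k⟮f⟯ K := by
  open scoped algebraAdjoinAdjoin in
  let A := Algebra.adjoin k {f}
  let e := Polynomial.algEquivOfTranscendental k f hf
  have hpid : IsPrincipalIdealRing A := IsPrincipalIdealRing.of_surjective e.toRingEquiv e.surjective
  have hded : IsDedekindDomain A := inferInstance
  have hfin := IsFF.finite hf
  let π : A := ⟨f, Algebra.self_mem_adjoin_singleton k f⟩
  have hf0 : f ≠ 0 := by
    rintro rfl
    exact hf (isAlgebraic_zero)
  have hπ : π ≠ 0 := by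
    intro h; exact hf0 (congrArg Subtype.val h)
  have heπ : e Polynomial.X = π := Polynomial.algEquivOfTranscendental_apply_X k f hf
  have hmax : (Ideal.span {π}).IsMaximal := by
    have h1 : (Ideal.span {(Polynomial.X : Polynomial k)}).IsMaximal := by
      have := PrincipalIdealRing.isMaximal_of_irreducible (Polynomial.irreducible_X (R := k))
      exact this
    have h2 : Ideal.span {π} = Ideal.map e.toRingEquiv.toRingHom (Ideal.span {(Polynomial.X : Polynomial k)}) := by
      rw [Ideal.map_span, Set.image_singleton]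
      congr 2
      exact heπ.symm
    rw [h2]
    exact Ideal.map_isMaximal_of_equiv e.toRingEquiv
  obtain ⟨S, hS1, hS2, hS3⟩ := fundamental (k := k) (A := A) (L := K) k⟮f⟯ π hπ hmax
  have hreg : ∀ w : Place k K, 0 < w.ord f → ∀ a : A, w.Reg (algebraMap A K a) := by
    rintro w hw ⟨a, ha⟩
    change w.Reg a
    induction ha using Algebra.adjoin_induction with
    | mem x hx =>
      rw [Set.mem_singleton_iff] at hx
      subst hx
      exact Or.inr hw.le
    | algebraMap r => exact w.reg_const r
    | add x y _ _ hx hy => exact w.reg_add hx hy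
    | mul x y _ _ hx hy => exact w.reg_mul hx hy
  have hS1' : ∀ w, w ∈ S ↔ 0 < w.ord f := by
    intro w
    rw [hS1]
    exact ⟨fun h => h.2, fun h => ⟨hreg w h, h⟩⟩
  have hdeg : ∀ w ∈ S, w.relf A = w.deg := by
    intro w hw
    have hw0 := (hS1' w).1 hw
    have h1 : ∀ a : A, ∃ c : k, w.red (algebraMap A K a) = algebraMap k w.RF c := by
      rintro ⟨a, ha⟩
      change ∃ c : k, w.red a = algebraMap k w.RF c
      suffices hh : w.Reg a ∧ ∃ c : k, w.red a = algebraMap k w.RF c from hh.2
      induction ha using Algebra.adjoin_induction with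
      | mem x hx =>
        rw [Set.mem_singleton_iff] at hx
        subst hx
        have hr : w.Reg x := Or.inr hw0.le
        exact ⟨hr, 0, by rw [map_zero, w.red_eq_zero_iff hr]; exact Or.inr hw0⟩
      | algebraMap r => exact ⟨w.reg_const r, r, rfl⟩
      | add x y _ _ hx hy =>
        obtain ⟨hx, c, hc⟩ := hx
        obtain ⟨hy, d, hd⟩ := hy
        exact ⟨w.reg_add hx hy, c + d, by rw [w.red_add hx hy, hc, hd, map_add]⟩
      | mul x y _ _ hx hy =>
        obtain ⟨hx, c, hc⟩ := hx
        obtain ⟨hy, d, hd⟩ := hy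
        exact ⟨w.reg_mul hx hy, c * d, by rw [w.red_mul hx hy, hc, hd, map_mul]⟩
    have h2 : Subfield.closure (Set.range fun a : A => w.red (algebraMap A K a)) = (algebraMap k w.RF).fieldRange := by
      apply le_antisymm
      · rw [Subfield.closure_le]
        rintro _ ⟨a, rfl⟩
        obtain ⟨c, hc⟩ := h1 a
        exact ⟨c, hc.symm⟩
      · rintro _ ⟨c, rfl⟩
        apply Subfield.subset_closure
        exact ⟨algebraMap k A c, rfl⟩
    unfold Place.relf Place.deg
    rw [h2]
    let i : k ≃+* (algebraMap k w.RF).fieldRange :=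
      RingEquiv.ofBijective (algebraMap k w.RF).rangeRestrictField
        ⟨(algebraMap k w.RF).rangeRestrictField.injective, by
          rintro ⟨_, ⟨c, rfl⟩⟩
          exact ⟨c, rfl⟩⟩
    exact (Algebra.finrank_eq_of_equiv_equiv i (RingEquiv.refl _) (by ext; rfl)).symm
  refine ⟨S, hS1', ?_, ?_⟩
  · intro w hw
    rw [← hdeg w hw]
    exact hS2 w hw
  · rw [← hS3]
    refine Finset.sum_congr rfl fun w hw => ?_
    rw [hdeg w hw]
    rfl

theorem poles' [h : IsFF k K] {f : K} (hf : Transcendental k f) (hsep : Algebra.IsSeparable k⟮f⟯ K) :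
    ∃ S : Finset (Place k K), (∀ w, w ∈ S ↔ w.ord f < 0) ∧
      ∑ w ∈ S, (- w.ord f).toNat * w.deg = finrank k⟮f⟯ K := by
  obtain ⟨S, hS, -, hS3⟩ := zeros' (k := k) (K := K) (f := f⁻¹) (by
    intro h; apply hf; simpa using h.inv) (by rw [adjoin_inv]; exact hsep)
  refine ⟨S, ?_, ?_⟩
  · intro w
    rw [hS, w.ord_inv]; omega
  · rw [adjoin_inv] at hS3
    rw [← hS3]
    refine Finset.sum_congr rfl fun w _ => ?_
    rw [w.ord_inv]


theorem sep_of_der (L M : Type*) [Field L] [Field M] [Algebra L M] [Algebra.EssFiniteType L M]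
    (h : ∀ d : Derivation L M M, d = 0) : Algebra.IsSeparable L M := by
  have h1 : Subsingleton (Ω[M⁄L]) := by
    refine ⟨fun x y => ?_⟩
    suffices H : ∀ x : Ω[M⁄L], x = 0 by rw [H x, H y]
    intro x
    rw [← Module.forall_dual_apply_eq_zero_iff M x]
    intro φ
    have h2 : φ = 0 := by
      apply (KaehlerDifferential.linearMapEquivDerivation L M (M := M)).injective
      rw [map_zero]
      exact h _
    rw [h2]
    rfl
  have h2 : Algebra.FormallyUnramified L M := ⟨h1⟩
  exact Algebra.FormallyUnramified.isSeparable L M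

theorem der_eq_zero_of_sep (L M : Type*) [Field L] [Field M] [Algebra L M]
    [Algebra.IsSeparable L M] (d : Derivation L M M) : d = 0 := by
  have h2 : Algebra.FormallyUnramified L M := Algebra.FormallyUnramified.of_isSeparable L M
  ext x
  have h3 : d x = d.liftKaehlerDifferential (KaehlerDifferential.D L M x) := by simp
  rw [h3, Subsingleton.elim (KaehlerDifferential.D L M x) 0, map_zero]
  rfl

theorem der_adjoin (t : K) (d : Derivation k K K) (h : d t = 0) :
    ∀ x ∈ k⟮t⟯, d x = 0 := by
  intro x hx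
  induction hx using IntermediateField.adjoin_induction with
  | mem x hx => rw [Set.mem_singleton_iff.1 hx]; exact h
  | algebraMap c => exact d.map_algebraMap c
  | add x y _ _ hx hy => rw [map_add, hx, hy, add_zero]
  | inv x _ hx => rw [Derivation.leibniz_inv, hx, smul_zero]
  | mul x y _ _ hx hy => rw [d.leibniz, hx, hy, smul_zero, smul_zero, add_zero]

theorem der_eq_zero (t : K) (hsep : Algebra.IsSeparable k⟮t⟯ K) (d : Derivation k K K)
    (h : d t = 0) : d = 0 := by
  have h0 := der_adjoin t d h
  let d' : Derivation k⟮t⟯ K K := Derivation.mk'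
    { toFun := fun x => d x
      map_add' := fun x y => map_add d x y
      map_smul' := by
        intro c x
        rw [RingHom.id_apply, Algebra.smul_def, Algebra.smul_def, d.leibniz]
        rw [show d ((algebraMap k⟮t⟯ K) c) = 0 from h0 _ c.2, smul_zero, add_zero, smul_eq_mul] }
    (by
      intro x y
      exact d.leibniz x y)
  have h1 : d' = 0 := der_eq_zero_of_sep k⟮t⟯ K d'
  ext x
  have : d' x = 0 := by rw [h1]; rfl
  exact this

theorem exists_der [IsFF k K] (t : K) (ht : Transcendental k t)
    (hsep : Algebra.IsSeparable k⟮t⟯ K) : ∃ d : Derivation k K K, d t ≠ 0 := by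
  by_contra hc
  push Not at hc
  have hess : Algebra.EssFiniteType k K := IsFF.ess
  have h1 : Algebra.IsSeparable k K := sep_of_der k K fun d => der_eq_zero t hsep d (hc d)
  exact ht (Algebra.IsAlgebraic.isAlgebraic t)

theorem sep_of_der_ne [IsFF k K] (t : K) (hsep : Algebra.IsSeparable k⟮t⟯ K)
    (d : Derivation k K K) (g : K) (hg : d g ≠ 0) : Algebra.IsSeparable k⟮g⟯ K := by
  have hess : Algebra.EssFiniteType k K := IsFF.ess
  have h3 : Algebra.EssFiniteType k⟮g⟯ K := Algebra.EssFiniteType.of_comp k k⟮g⟯ K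
  have ht : d t ≠ 0 := fun h => hg (by rw [der_eq_zero t hsep d h]; rfl)
  refine sep_of_der _ _ fun δ => ?_
  let δ' : Derivation k K K := δ.restrictScalars k
  have h4 : δ' - (δ' t / d t) • d = 0 := by
    apply der_eq_zero t hsep
    rw [Derivation.sub_apply, Derivation.smul_apply, smul_eq_mul, div_mul_cancel₀ _ ht, sub_self]
  have h5 : δ' g = 0 := by
    exact δ.map_algebraMap (⟨g, mem_adjoin_simple_self k g⟩ : k⟮g⟯)
  have h6 : (δ' t / d t) * d g = 0 := by
    have := congrArg (fun D : Derivation k K K => D g) h4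
    simp only [Derivation.sub_apply, Derivation.smul_apply, smul_eq_mul, h5, zero_sub] at this
    exact neg_eq_zero.1 this
  have h7 : δ' t = 0 := by
    rcases mul_eq_zero.1 h6 with h | h
    · rcases div_eq_zero_iff.1 h with h | h
      · exact h
      · exact absurd h ht
    · exact absurd h hg
  have h8 : δ' = 0 := der_eq_zero t hsep δ' h7
  ext x
  have : δ' x = 0 := by rw [h8]; rfl
  exact this

theorem transc_of_der_ne [PerfectField k] (d : Derivation k K K) (g : K) (hg : d g ≠ 0) :
    Transcendental k g := by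
  intro h
  apply hg
  have h1 : (minpoly k g).Separable := PerfectField.separable_of_irreducible
    (minpoly.irreducible h.isIntegral)
  have h2 := d.map_aeval (minpoly k g) g
  rw [minpoly.aeval, map_zero] at h2
  have h3 : Polynomial.aeval g (Polynomial.derivative (minpoly k g)) ≠ 0 := by
    exact h1.aeval_derivative_ne_zero (minpoly.aeval k g)
  rcases smul_eq_zero.1 h2.symm with h | h
  · exact absurd h h3
  · exact h

end

/-- `K` is separable over some rational function field. -/
def SepFF (k K : Type*) [Field k] [Field K] [Algebra k K] : Prop :=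
  ∃ t : K, Transcendental k t ∧ Algebra.IsSeparable k⟮t⟯ K

section
variable {k K : Type*} [Field k] [IsAlgClosed k] [Field K] [Algebra k K] [IsFF k K]

theorem good_der (h : SepFF k K) : ∃ (d : Derivation k K K) (t : K), d t ≠ 0 ∧
    ∀ g : K, d g ≠ 0 → Transcendental k g ∧ Algebra.IsSeparable k⟮g⟯ K := by
  obtain ⟨t, ht, hsep⟩ := h
  obtain ⟨d, hd⟩ := exists_der t ht hsep
  exact ⟨d, t, hd, fun g hg => ⟨transc_of_der_ne d g hg, sep_of_der_ne t hsep d g hg⟩⟩

theorem deg_eq_one (h : SepFF k K) (P : Place k K) : P.deg = 1 := by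
  obtain ⟨d, t, ht, hd⟩ := good_der h
  have ht0 : t ≠ 0 := by rintro rfl; exact ht (map_zero d)
  have h1 : ∃ g : K, d g ≠ 0 ∧ P.ord g ≠ 0 := by
    obtain ⟨s, hs0, hs⟩ := P.surj
    by_cases h1 : d s ≠ 0
    · exact ⟨s, h1, by omega⟩
    push Not at h1
    by_cases h2 : P.ord t ≠ 0
    · exact ⟨t, ht, h2⟩
    push Not at h2
    refine ⟨s * t, ?_, ?_⟩
    · rw [d.leibniz, h1, smul_zero, add_zero, smul_eq_mul]
      exact mul_ne_zero hs0 ht
    · rw [P.ord_mul hs0 ht0, h2, hs]; norm_num
  obtain ⟨g, hg, hP⟩ := h1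
  obtain ⟨htr, hsep⟩ := hd g hg
  have hpos : 0 < P.deg := by
    rcases lt_or_gt_of_ne hP with h | h
    · obtain ⟨S, hS, hS2, -⟩ := zeros' (k := k) (K := K) (f := g⁻¹)
        (by intro h; apply htr; simpa using h.inv) (by rw [adjoin_inv]; exact hsep)
      exact hS2 P ((hS P).2 (by rw [P.ord_inv]; omega))
    · obtain ⟨S, hS, hS2, -⟩ := zeros' (k := k) (K := K) (f := g) htr hsep
      exact hS2 P ((hS P).2 h)
  have hfin : FiniteDimensional k P.RF := FiniteDimensional.of_finrank_pos hpos
  have hbij : Function.Bijective (algebraMap k P.RF) :=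
    IsAlgClosed.algebraMap_bijective_of_isIntegral
  unfold Place.deg
  exact (finrank_eq_one_iff_of_nonzero' (1 : P.RF) one_ne_zero).2 (by
    intro w
    obtain ⟨c, hc⟩ := hbij.2 w
    exact ⟨c, by rw [← hc, Algebra.smul_def, mul_one]⟩)

theorem good_sum (h : SepFF k K) (g : K) (htr : Transcendental k g)
    (hsep : Algebra.IsSeparable k⟮g⟯ K) :
    {P : Place k K | P.ord g ≠ 0}.Finite ∧ ∑ᶠ P : Place k K, P.ord g = 0 := by
  classical
  obtain ⟨S, hS, -, hS3⟩ := zeros' (k := k) (K := K) (f := g) htr hsep
  obtain ⟨T, hT, hT3⟩ := poles' (k := k) (K := K) (f := g) htr hsep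
  have hsub : {P : Place k K | P.ord g ≠ 0} ⊆ ((S ∪ T : Finset (Place k K)) : Set (Place k K)) := by
    intro P hP
    rw [Finset.coe_union]
    rcases lt_or_gt_of_ne hP with h | h
    · right; exact Finset.mem_coe.2 ((hT P).2 h)
    · left; exact Finset.mem_coe.2 ((hS P).2 h)
  refine ⟨(S ∪ T).finite_toSet.subset hsub, ?_⟩
  rw [finsum_eq_sum_of_support_subset _ hsub, Finset.sum_union]
  · have h1 : ∑ P ∈ S, P.ord g = (finrank k⟮g⟯ K : ℤ) := by
      rw [← hS3]
      push_cast
      refine Finset.sum_congr rfl fun P hP => ?_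
      have := (hS P).1 hP
      rw [deg_eq_one h P]
      rw [Nat.cast_one, mul_one]
      omega
    have h2 : ∑ P ∈ T, P.ord g = -(finrank k⟮g⟯ K : ℤ) := by
      rw [← hT3]
      push_cast
      rw [← Finset.sum_neg_distrib]
      refine Finset.sum_congr rfl fun P hP => ?_
      have := (hT P).1 hP
      rw [deg_eq_one h P]
      rw [Nat.cast_one, mul_one]
      omega
    rw [h1, h2]; ring
  · rw [Finset.disjoint_left]
    intro P h1 h2
    have := (hS P).1 h1
    have := (hT P).1 h2
    omega

/-- Finiteness of the support. -/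
theorem finite_support' (h : SepFF k K) (f : K) : {P : Place k K | P.ord f ≠ 0}.Finite := by
  obtain ⟨d, t, ht, hd⟩ := good_der h
  have ht0 : t ≠ 0 := by rintro rfl; exact ht (map_zero d)
  by_cases hf0 : f = 0
  · convert Set.finite_empty
    ext P
    simp [hf0, P.ord_zero]
  by_cases hf : d f ≠ 0
  · exact (good_sum h f (hd f hf).1 (hd f hf).2).1
  push Not at hf
  have hft : d (f * t) ≠ 0 := by
    rw [d.leibniz, hf, smul_zero, add_zero, smul_eq_mul]
    exact mul_ne_zero hf0 ht
  have h1 := (good_sum h _ (hd _ hft).1 (hd _ hft).2).1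
  have h2 := (good_sum h _ (hd _ ht).1 (hd _ ht).2).1
  refine (h1.union h2).subset ?_
  intro P hP
  by_contra hc
  simp only [Set.mem_union, Set.mem_setOf_eq, not_or, not_not] at hc
  apply hP
  rw [P.ord_mul hf0 ht0, hc.2] at hc
  have := hc.1
  omega

/-- The product formula. -/
theorem sum_ord (h : SepFF k K) (f : K) : ∑ᶠ P : Place k K, P.ord f = 0 := by
  obtain ⟨d, t, ht, hd⟩ := good_der h
  have ht0 : t ≠ 0 := by rintro rfl; exact ht (map_zero d)
  by_cases hf0 : f = 0
  · simp [hf0, Place.ord_zero]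
  by_cases hf : d f ≠ 0
  · exact (good_sum h f (hd f hf).1 (hd f hf).2).2
  push Not at hf
  have hft : d (f * t) ≠ 0 := by
    rw [d.leibniz, hf, smul_zero, add_zero, smul_eq_mul]
    exact mul_ne_zero hf0 ht
  have h1 := (good_sum h _ (hd _ hft).1 (hd _ hft).2).2
  have h2 := (good_sum h _ (hd _ ht).1 (hd _ ht).2).2
  have h3 : ∀ P : Place k K, P.ord (f * t) = P.ord f + P.ord t := fun P => P.ord_mul hf0 ht0
  simp only [h3] at h1
  rw [finsum_add_distrib (finite_support' h f) (finite_support' h t), h2, add_zero] at h1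
  exact h1

end

section final
variable {k K : Type*} [Field k] [Field K] [Algebra k K]

theorem sepFF [PerfectField k] [IsFF k K] : SepFF k K := by
  have hess : Algebra.EssFiniteType k K := IsFF.ess
  obtain ⟨s, hs, hsep⟩ := exists_isTranscendenceBasis_and_isSeparable_of_perfectField k K
  have h1 := hs.lift_cardinalMk_eq_trdeg
  rw [IsFF.trdeg] at h1
  have h2 : s.card = 1 := by
    rw [Cardinal.mk_fintype] at h1
    simpa using h1
  obtain ⟨t, rfl⟩ := Finset.card_eq_one.1 h2
  refine ⟨t, ?_, ?_⟩
  · have h3 := hs.1.transcendental ⟨t, Finset.mem_singleton_self t⟩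
    exact h3
  · rw [Finset.coe_singleton] at hsep
    exact hsep

theorem place_deg_one [IsAlgClosed k] [IsFF k K] (P : Place k K) : P.deg = 1 := deg_eq_one sepFF P

theorem finite_supp [IsAlgClosed k] [IsFF k K] (f : K) : {P : Place k K | P.ord f ≠ 0}.Finite :=
  finite_support' sepFF f

theorem prod_formula [IsAlgClosed k] [IsFF k K] (f : K) : ∑ᶠ P : Place k K, P.ord f = 0 :=
  sum_ord sepFF f

theorem prod_formula' {F K : Type*} [Field F] [IsAlgClosed F] [Field K] [Algebra F K]
    (t : K) (ht : Transcendental F t) [hfin : FiniteDimensional F⟮t⟯ K] (g : K) :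
    {w : Place F K | w.ord g ≠ 0}.Finite ∧ ∑ᶠ w : Place F K, w.ord g = 0 := by
  have : IsFF F K := IsFF.of_finite ht hfin
  exact ⟨finite_supp g, prod_formula g⟩

theorem exists_place' [IsAlgClosed k] [IsFF k K] : Nonempty (Place k K) := by
  obtain ⟨t, ht, hsep⟩ := sepFF (k := k) (K := K)
  obtain ⟨S, hS, -, hS3⟩ := zeros' (k := k) (K := K) (f := t) ht hsep
  have := IsFF.finite ht
  have h1 : 0 < finrank k⟮t⟯ K := finrank_pos
  by_contra hc
  rw [not_nonempty_iff] at hc
  have : S = ∅ := by
    ext P; exact hc.elim P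
  rw [this] at hS3
  simp at hS3
  omega

theorem exists_const [IsAlgClosed k] [IsFF k K] (P : Place k K) (f : K) (hf : P.Reg f) :
    ∃ c : k, f = algebraMap k K c ∨ 0 < P.ord (f - algebraMap k K c) := by
  have h1 : finrank k P.RF = 1 := place_deg_one P
  have hfin : FiniteDimensional k P.RF := FiniteDimensional.of_finrank_pos (by omega)
  have hbij : Function.Bijective (algebraMap k P.RF) :=
    IsAlgClosed.algebraMap_bijective_of_isIntegral
  obtain ⟨c, hc⟩ := hbij.2 (P.red f)
  refine ⟨c, ?_⟩
  have h2 : P.red (f - algebraMap k K c) = 0 := by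
    rw [P.red_sub hf (P.reg_const c), ← hc, P.algebraMap_RF, sub_self]
  have hr : P.Reg (f - algebraMap k K c) := by
    rw [sub_eq_add_neg]
    exact P.reg_add hf (P.reg_neg (P.reg_const c))
  rw [P.red_eq_zero_iff hr] at h2
  rcases h2 with h | h
  · exact Or.inl (sub_eq_zero.1 h)
  · exact Or.inr h

/-- A non-constant element has a pole. -/
theorem exists_pole [IsAlgClosed k] [IsFF k K] (f : K) (hf : f ∉ Set.range (algebraMap k K)) :
    ∃ P : Place k K, P.ord f < 0 := by
  by_contra hc
  push Not at hc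
  obtain ⟨P⟩ := exists_place' (k := k) (K := K)
  obtain ⟨c, h | h⟩ := exists_const P f (Or.inr (hc P))
  · exact hf ⟨c, h.symm⟩
  · have h0 : ∀ Q : Place k K, 0 ≤ Q.ord (f - algebraMap k K c) := by
      intro Q
      have hr : Q.Reg (f - algebraMap k K c) := by
        rw [sub_eq_add_neg]
        exact Q.reg_add (Or.inr (hc Q)) (Q.reg_neg (Q.reg_const c))
      rcases hr with h | h
      · rw [h, Q.ord_zero]
      · exact h
    have h1 := prod_formula (k := k) (f - algebraMap k K c)
    have h2 : 0 < ∑ᶠ Q : Place k K, Q.ord (f - algebraMap k K c) := by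
      apply finsum_pos' (fun Q => h0 Q) ⟨P, h⟩
      exact finite_supp _
    omega

/-- A non-constant element has a zero. -/
theorem exists_zero [IsAlgClosed k] [IsFF k K] (f : K) (hf : f ∉ Set.range (algebraMap k K)) :
    ∃ P : Place k K, 0 < P.ord f := by
  obtain ⟨P, hP⟩ := exists_pole (k := k) f⁻¹ (by
    rintro ⟨c, hc⟩
    exact hf ⟨c⁻¹, by rw [map_inv₀, hc, inv_inv]⟩)
  rw [P.ord_inv] at hP
  exact ⟨P, by omega⟩

/-- If all orders are nonnegative then the element is constant. -/
theorem const_of_reg [IsAlgClosed k] [IsFF k K] (f : K) (hf : ∀ P : Place k K, 0 ≤ P.ord f) :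
    f ∈ Set.range (algebraMap k K) := by
  by_contra h
  obtain ⟨P, hP⟩ := exists_pole f h
  have := hf P
  omega

end final

end FF
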