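import Pool.Agent.Helper693.Nef.SummedH
import Pool.Agent.Helper729.NF.Defs

set_option autoImplicit false

namespace Nef

variable (k K : Type*) [Field k] [IsAlgClosed k] [Field K] [Algebra k K] [FF.IsFF k K]

/-- The valuation of a place. -/
def toVal {k K : Type*} [Field k] [Field K] [Algebra k K] (P : FF.Place k K) : NefMod.Val K where
  ord := P.ord
  ord_mul := P.ord_mul
  ord_add := P.ord_add

/-- The places of a function field form a system with product formula. -/
def psFF : NefMod.PS K where
  I := FF.Place k K
  v := toVal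
  fin f _ := FF.finite_supp (k := k) f
  prod f _ := FF.prod_formula (k := k) f

theorem moV_eq_vord {k K : Type*} [Field k] [Field K] [Algebra k K] {ι : Type*} [Fintype ι]
    (P : FF.Place k K) (x : ι → K) : NefMod.moV (toVal P) x = H116RR.vord P x := by
  classical
  by_cases hx : ∃ i, x i ≠ 0
  · exact IsMo.unique (isMo_iInf P x hx) (isMo_vord P x hx)
  · push Not at hx
    unfold NefMod.moV H116RR.vord
    rw [dif_neg]
    · have : IsEmpty {i : ι // x i ≠ 0} := ⟨fun i => i.2 (hx i.1)⟩
      rw [iInf_of_isEmpty]
      exact Int.csInf_empty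
    · rintro ⟨i, hi⟩
      simp only [Finset.mem_filter] at hi
      exact hi.2 (hx i)

theorem ht_psFF {ι : Type*} [Fintype ι] (x : ι → K) : (psFF k K).ht x = H116RR.hgt k x := by
  unfold NefMod.PS.ht H116RR.hgt
  rw [← finsum_neg_distrib]
  exact finsum_congr fun P => by rw [← moV_eq_vord P x]; rfl

end Nef
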