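import Mathlib

set_option autoImplicit false

open Polynomial

namespace Nef

variable {K : Type*} [Field K]


/-- bound of the coefficients -/
def Bd2 (v : AbsoluteValue K ℝ) (e : ℕ) (R : ℝ) (G : K[X]) (c : ℝ) : Prop :=
  ∀ n ≤ e, v (G.coeff n) * R ^ n ≤ c

theorem v_sum_le2 (v : AbsoluteValue K ℝ) (hv : IsNonarchimedean v) {ι : Type*} (s : Finset ι)
    (f : ι → K) (c : ℝ) (hc : 0 ≤ c) (h : ∀ i ∈ s, v (f i) ≤ c) : v (∑ i ∈ s, f i) ≤ c := by
  classical
  induction s using Finset.induction_on with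
  | empty => simpa using hc
  | insert a s ha ih =>
    rw [Finset.sum_insert ha]
    refine (hv _ _).trans (max_le (h a (by simp)) (ih fun i hi => h i (by simp [hi])))

theorem Bd2.mul {v : AbsoluteValue K ℝ} (hv : IsNonarchimedean v) {e : ℕ} {R : ℝ} (hR : 0 < R)
    {G H : K[X]} {c d : ℝ} (hc : 0 ≤ c) (hd : 0 ≤ d) (h1 : Bd2 v e R G c) (h2 : Bd2 v e R H d) :
    Bd2 v e R (G * H) (c * d) := by
  intro n hn
  have hRn : 0 < R ^ n := pow_pos hR n
  rw [← le_div_iff₀ hRn, coeff_mul]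
  apply v_sum_le2 v hv _ _ _ (by positivity)
  intro p hp
  have hp' := Finset.HasAntidiagonal.mem_antidiagonal.1 hp
  rw [le_div_iff₀ hRn, map_mul, ← hp', pow_add]
  calc v (G.coeff p.1) * v (H.coeff p.2) * (R ^ p.1 * R ^ p.2)
      = (v (G.coeff p.1) * R ^ p.1) * (v (H.coeff p.2) * R ^ p.2) := by ring
    _ ≤ c * d := mul_le_mul (h1 _ (by omega)) (h2 _ (by omega))
        (mul_nonneg (v.nonneg _) (pow_nonneg hR.le _)) hc

theorem Bd2.pow {v : AbsoluteValue K ℝ} (hv : IsNonarchimedean v) {e : ℕ} {R : ℝ} (hR : 0 < R)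
    {G : K[X]} {c : ℝ} (hc : 0 ≤ c) (h1 : Bd2 v e R G c) (i : ℕ) :
    Bd2 v e R (G ^ i) (c ^ i) := by
  induction i with
  | zero =>
    intro n _
    rw [pow_zero, pow_zero, coeff_one]
    split_ifs with h
    · rw [h]; simp
    · simp
  | succ i ih =>
    rw [pow_succ, pow_succ]
    exact Bd2.mul hv hR (pow_nonneg hc _) hc ih h1

theorem Bd2.lin {v : AbsoluteValue K ℝ} {e : ℕ} {R S : ℝ}
    (hR : 0 < R) (hRS : R ≤ S) {a : K} (ha : v a ≤ S) : Bd2 v e R (X + C a) S := by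
  intro n _
  rcases n with _ | _ | n
  · simpa using ha
  · simpa [coeff_C] using hRS
  · have : (X + C a).coeff (n + 1 + 1) = 0 := by
      rw [coeff_add, coeff_X_of_ne_one (by omega), coeff_C_ne_zero (by omega), add_zero]
    rw [this, map_zero, zero_mul]
    exact hR.le.trans hRS

theorem v_nat_le2 (v : AbsoluteValue K ℝ) (hv : IsNonarchimedean v) (n : ℕ) : v (n : K) ≤ 1 := by
  induction n with
  | zero => simp
  | succ n ih =>
    rw [Nat.cast_succ]
    exact (hv _ _).trans (max_le ih (by simp))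

theorem Bd2.sm {v : AbsoluteValue K ℝ} (hv : IsNonarchimedean v) {e : ℕ} {R : ℝ} (hR : 0 < R)
    {y : K} (hy : v y ≤ R) : Bd2 v e R ((X + C y) ^ (2 * e)) (v y ^ e * R ^ e) := by
  intro n hn
  rw [coeff_X_add_C_pow, map_mul, map_pow]
  have h1 : v y ^ (2 * e - n) = v y ^ e * v y ^ (e - n) := by
    rw [← pow_add]; congr 1; omega
  have h2 : R ^ e = R ^ (e - n) * R ^ n := by
    rw [← pow_add]; congr 1; omega
  rw [h1, h2]
  have h3 : v y ^ (e - n) ≤ R ^ (e - n) := pow_le_pow_left₀ (v.nonneg _) hy _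
  have h4 := v_nat_le2 v hv ((2 * e).choose n)
  have h5 : 0 ≤ v y ^ e := pow_nonneg (v.nonneg _) _
  have h6 : 0 ≤ v y ^ (e - n) := pow_nonneg (v.nonneg _) _
  have h7 : 0 ≤ v (((2 * e).choose n : ℕ) : K) := v.nonneg _
  calc v y ^ e * v y ^ (e - n) * v (((2 * e).choose n : ℕ) : K) * R ^ n
      ≤ v y ^ e * v y ^ (e - n) * 1 * R ^ n := by
        gcongr
    _ = v y ^ e * (v y ^ (e - n) * R ^ n) := by ring
    _ ≤ v y ^ e * (R ^ (e - n) * R ^ n) := by
        gcongr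

theorem bound2 (v : AbsoluteValue K ℝ) (hv : IsNonarchimedean v) (e i : ℕ) (a y1 y2 y3 : K)
    (R S : ℝ) (hR : 0 < R) (hRS : R ≤ S) (ha : v a ≤ S) (h1 : v y1 ≤ R) (h2 : v y2 ≤ R)
    (h3 : v y3 ≤ S) :
    v (((X + C a) ^ i * ((X + C y1) ^ (2 * e) * (X + C y2) ^ (2 * e) *
      (X + C y3) ^ (2 * e))).coeff e) ≤ S ^ (i + 2 * e) * (v y1 * v y2) ^ e * R ^ e := by
  have hS : 0 < S := hR.trans_le hRS
  have b1 := Bd2.pow (e := e) hv hR hS.le (Bd2.lin hR hRS ha) i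
  have b2 := Bd2.sm (e := e) hv hR h1
  have b3 := Bd2.sm (e := e) hv hR h2
  have b4 := Bd2.pow (e := e) hv hR hS.le (Bd2.lin hR hRS h3) (2 * e)
  have hy1 := v.nonneg y1
  have hy2 := v.nonneg y2
  have b5 := Bd2.mul hv hR (by positivity) (by positivity) b1
    (Bd2.mul hv hR (by positivity) (by positivity) (Bd2.mul hv hR (by positivity) (by positivity)
      b2 b3) b4) e le_rfl
  have hRe : 0 < R ^ e := pow_pos hR e
  refine le_of_mul_le_mul_right (b5.trans_eq ?_) hRe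
  rw [mul_pow, pow_add]
  ring

end Nef
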