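import Mathlib

set_option autoImplicit false

open Polynomial

namespace Nef

variable {K : Type*} [Field K]

/-- coefficient bound up to degree `e` -/
def Bd (v : AbsoluteValue K ℝ) (e : ℕ) (S : ℝ) (G : K[X]) (B : ℝ) : Prop :=
  ∀ n, n ≤ e → v (G.coeff n) * S ^ n ≤ B

theorem v_sum_le (v : AbsoluteValue K ℝ) (hv : IsNonarchimedean v) {ι : Type*} (s : Finset ι)
    (f : ι → K) (D : ℝ) (hD : 0 ≤ D) (h : ∀ i ∈ s, v (f i) ≤ D) : v (∑ i ∈ s, f i) ≤ D := by
  classical
  induction s using Finset.induction_on with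
  | empty => simpa using hD
  | insert a s ha ih =>
    rw [Finset.sum_insert ha]
    refine le_trans (hv _ _) (max_le (h a (Finset.mem_insert_self _ _)) (ih ?_))
    intro i hi
    exact h i (Finset.mem_insert_of_mem hi)

theorem Bd.nonneg {v : AbsoluteValue K ℝ} {e : ℕ} {S : ℝ} (hS : 0 < S) {G : K[X]} {B : ℝ}
    (h : Bd v e S G B) : 0 ≤ B :=
  le_trans (mul_nonneg (v.nonneg _) (pow_nonneg hS.le _)) (h 0 (Nat.zero_le e))

theorem Bd.mul {v : AbsoluteValue K ℝ} (hv : IsNonarchimedean v) {e : ℕ} {S : ℝ} (hS : 0 < S)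
    {G H : K[X]} {B B' : ℝ} (h : Bd v e S G B) (h' : Bd v e S H B') :
    Bd v e S (G * H) (B * B') := by
  intro n hn
  have hSn : 0 < S ^ n := pow_pos hS n
  rw [← le_div_iff₀ hSn, Polynomial.coeff_mul]
  apply v_sum_le v hv
  · exact div_nonneg (mul_nonneg (h.nonneg hS) (h'.nonneg hS)) hSn.le
  · intro x hx
    rw [Finset.HasAntidiagonal.mem_antidiagonal] at hx
    rw [le_div_iff₀ hSn, map_mul]
    have h1 := h x.1 (by omega)
    have h2 := h' x.2 (by omega)
    calc v (G.coeff x.1) * v (H.coeff x.2) * S ^ n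
        = (v (G.coeff x.1) * S ^ x.1) * (v (H.coeff x.2) * S ^ x.2) := by
          rw [← hx, pow_add]; ring
      _ ≤ B * B' := mul_le_mul h1 h2 (mul_nonneg (v.nonneg _) (pow_nonneg hS.le _))
          (h.nonneg hS)

theorem Bd_lin (v : AbsoluteValue K ℝ) (hv : IsNonarchimedean v) (e i : ℕ) (a : K)
    (S : ℝ) (hS : 0 < S) (ha : v a ≤ S) : Bd v e S ((X + C a) ^ i) (S ^ i) := by
  intro n _
  rw [Polynomial.coeff_X_add_C_pow, map_mul, map_pow]
  have h1 : v ((i.choose n : ℕ) : K) ≤ 1 := hv.apply_natCast_le_one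
  rcases le_or_gt n i with h | h
  · calc v a ^ (i - n) * v ((i.choose n : ℕ) : K) * S ^ n
        ≤ S ^ (i - n) * 1 * S ^ n := by
          apply mul_le_mul_of_nonneg_right _ (pow_nonneg hS.le _)
          apply mul_le_mul _ h1 (v.nonneg _) (pow_nonneg hS.le _)
          exact pow_le_pow_left₀ (v.nonneg _) ha _
      _ = S ^ i := by
          rw [mul_one, ← pow_add]
          congr 1
          omega
  · rw [Nat.choose_eq_zero_of_lt h, Nat.cast_zero, map_zero, mul_zero, zero_mul]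
    exact pow_nonneg hS.le _

theorem Bd_two (v : AbsoluteValue K ℝ) (hv : IsNonarchimedean v) (e : ℕ) (y : K)
    (S : ℝ) (hS : 0 < S) (hy : v y ≤ S) :
    Bd v e S ((X + C y) ^ (2 * e)) ((v y) ^ e * S ^ e) := by
  intro n hn
  rw [Polynomial.coeff_X_add_C_pow, map_mul, map_pow]
  have h1 : v (((2 * e).choose n : ℕ) : K) ≤ 1 := hv.apply_natCast_le_one
  calc v y ^ (2 * e - n) * v (((2 * e).choose n : ℕ) : K) * S ^ n
      ≤ v y ^ (2 * e - n) * 1 * S ^ n := by
        apply mul_le_mul_of_nonneg_right _ (pow_nonneg hS.le _)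
        exact mul_le_mul_of_nonneg_left h1 (pow_nonneg (v.nonneg _) _)
    _ = v y ^ e * (v y ^ (e - n) * S ^ n) := by
        rw [mul_one, ← mul_assoc, ← pow_add]
        congr 2
        omega
    _ ≤ v y ^ e * (S ^ (e - n) * S ^ n) := by
        apply mul_le_mul_of_nonneg_left _ (pow_nonneg (v.nonneg _) _)
        apply mul_le_mul_of_nonneg_right _ (pow_nonneg hS.le _)
        exact pow_le_pow_left₀ (v.nonneg _) hy _
    _ = v y ^ e * S ^ e := by
        rw [← pow_add]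
        congr 2
        omega

theorem bound3 (v : AbsoluteValue K ℝ) (hv : IsNonarchimedean v) (e i : ℕ) (a y1 y2 y3 : K)
    (S : ℝ) (hS : 0 < S) (ha : v a ≤ S) (h1 : v y1 ≤ S) (h2 : v y2 ≤ S) (h3 : v y3 ≤ S) :
    v (((X + C a) ^ i * ((X + C y1) ^ (2 * e) * (X + C y2) ^ (2 * e) *
      (X + C y3) ^ (2 * e))).coeff e) ≤ S ^ (i + 2 * e) * (v y1 * v y2 * v y3) ^ e := by
  have hB := (Bd_lin v hv e i a S hS ha).mul hv hS
    (((Bd_two v hv e y1 S hS h1).mul hv hS (Bd_two v hv e y2 S hS h2)).mul hv hS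
      (Bd_two v hv e y3 S hS h3))
  have h := hB e le_rfl
  have hSe : 0 < S ^ e := pow_pos hS e
  rw [← le_div_iff₀ hSe] at h
  refine le_trans h (le_of_eq ?_)
  rw [div_eq_iff hSe.ne', mul_pow, mul_pow]
  have e1 : S ^ (i + 2 * e) = S ^ i * (S ^ e * S ^ e) := by
    rw [← pow_add, ← pow_add]
    congr 1
    omega
  rw [e1]
  ring

end Nef
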