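import Mathlib

set_option autoImplicit false

open Polynomial

namespace Nef

variable {K : Type*} [Field K]


theorem closeness_cusp (x : Fin 4 → Fin 4 → ℝ) (zz : ℝ) (hsym : ∀ i j, x i j = x j i)
    (q a b c : Fin 4) (hab : a ≠ b) (hac : a ≠ c) (hbc : b ≠ c) (haq : a ≠ q) (hbq : b ≠ q)
    (hcq : c ≠ q) (h1 : x a q = zz) (h2 : x b q = zz) (h3 : x c q = zz) :
    (∃ j l m q : Fin 4, j ≠ l ∧ j ≠ m ∧ j ≠ q ∧ l ≠ m ∧ l ≠ q ∧ m ≠ q ∧
      x j q = zz ∧ x l q = zz ∧ x m q = zz ∧ x j l ≤ x l m ∧ x j m ≤ x l m) := by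
  rcases le_total (x a b) (x b c) with h | h
  · rcases le_total (x a c) (x b c) with h' | h'
    · exact ⟨a, b, c, q, hab, hac, haq, hbc, hbq, hcq, h1, h2, h3, h, h'⟩
    · exact ⟨b, a, c, q, hab.symm, hbc, hbq, hac, haq, hcq, h2, h1, h3,
        by rw [hsym b a]; exact h.trans h', h'⟩
  · rcases le_total (x a c) (x a b) with h' | h'
    · exact ⟨c, a, b, q, hac.symm, hbc.symm, hcq, hab, haq, hbq, h3, h1, h2,
        by rw [hsym c a]; exact h', by rw [hsym c b]; exact h⟩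
    · exact ⟨b, a, c, q, hab.symm, hbc, hbq, hac, haq, hcq, h2, h1, h3,
        by rw [hsym b a]; exact h', h.trans h'⟩

theorem closeness_core (x : Fin 4 → Fin 4 → ℝ) (zz : ℝ) (hsym : ∀ i j, x i j = x j i)
    (hle : ∀ i j, i ≠ j → x i j ≤ zz)
    (hult : ∀ i j k, i ≠ j → j ≠ k → i ≠ k → x i k ≤ max (x i j) (x j k))
    (i j k l : Fin 4) (hij : i ≠ j) (hik : i ≠ k) (hil : i ≠ l) (hjk : j ≠ k) (hjl : j ≠ l)
    (hkl : k ≠ l) (h0 : x i j = zz) :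
    (∃ j k l m : Fin 4, j ≠ k ∧ j ≠ l ∧ j ≠ m ∧ k ≠ l ∧ k ≠ m ∧ l ≠ m ∧ x j k = zz ∧ x l m = zz) ∨
    (∃ j l m q : Fin 4, j ≠ l ∧ j ≠ m ∧ j ≠ q ∧ l ≠ m ∧ l ≠ q ∧ m ≠ q ∧
      x j q = zz ∧ x l q = zz ∧ x m q = zz ∧ x j l ≤ x l m ∧ x j m ≤ x l m) := by
  have e1 : x i k = zz ∨ x j k = zz := by
    have h := hult i k j hik hjk.symm hij
    rw [h0] at h
    rcases le_max_iff.mp h with h | h
    · exact Or.inl (le_antisymm (hle _ _ hik) h)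
    · rw [hsym k j] at h
      exact Or.inr (le_antisymm (hle _ _ hjk) h)
  have e2 : x i l = zz ∨ x j l = zz := by
    have h := hult i l j hil hjl.symm hij
    rw [h0] at h
    rcases le_max_iff.mp h with h | h
    · exact Or.inl (le_antisymm (hle _ _ hil) h)
    · rw [hsym l j] at h
      exact Or.inr (le_antisymm (hle _ _ hjl) h)
  rcases e1 with e1 | e1
  · rcases e2 with e2 | e2
    · right
      exact closeness_cusp x zz hsym i j k l hjk hjl hkl hij.symm hik.symm hil.symm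
        (by rw [hsym j i]; exact h0) (by rw [hsym k i]; exact e1) (by rw [hsym l i]; exact e2)
    · left
      exact ⟨i, k, j, l, hik, hij, hil, hjk.symm, hkl, hjl, e1, e2⟩
  · rcases e2 with e2 | e2
    · left
      exact ⟨j, k, i, l, hjk, hij.symm, hjl, hik.symm, hkl, hil, e1, e2⟩
    · right
      exact closeness_cusp x zz hsym j i k l hik hil hkl hij hjk.symm hjl.symm
        h0 (by rw [hsym k j]; exact e1) (by rw [hsym l j]; exact e2)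

theorem closeness_compl : ∀ i j : Fin 4, i ≠ j → ∃ k l : Fin 4, i ≠ k ∧ i ≠ l ∧ j ≠ k ∧ j ≠ l ∧
    k ≠ l := by decide

theorem closeness (x : Fin 4 → Fin 4 → ℝ) (zz : ℝ) (hsym : ∀ i j, x i j = x j i)
    (hpos : ∀ i j, i ≠ j → 0 < x i j) (hle : ∀ i j, i ≠ j → x i j ≤ zz)
    (hmax : ∃ i j, i ≠ j ∧ x i j = zz)
    (hult : ∀ i j k, i ≠ j → j ≠ k → i ≠ k → x i k ≤ max (x i j) (x j k)) :
    (∃ j k l m : Fin 4, j ≠ k ∧ j ≠ l ∧ j ≠ m ∧ k ≠ l ∧ k ≠ m ∧ l ≠ m ∧ x j k = zz ∧ x l m = zz) ∨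
    (∃ j l m q : Fin 4, j ≠ l ∧ j ≠ m ∧ j ≠ q ∧ l ≠ m ∧ l ≠ q ∧ m ≠ q ∧
      x j q = zz ∧ x l q = zz ∧ x m q = zz ∧ x j l ≤ x l m ∧ x j m ≤ x l m) := by
  obtain ⟨i, j, hij, h0⟩ := hmax
  obtain ⟨k, l, hik, hil, hjk, hjl, hkl⟩ := closeness_compl i j hij
  exact closeness_core x zz hsym hle hult i j k l hij hik hil hjk hjl hkl h0

end Nef
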