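import Mathlib

set_option autoImplicit false

open Polynomial

namespace Nef

variable {K : Type*} [Field K]

theorem coeff_factor (a : Fin 4 → K) (e i : ℕ) (j : Fin 4) :
    ((X ^ i * (∏ k, (X - C (a k))) ^ (2 * e)).comp (X + C (a j))).coeff (3 * e) =
      ((X + C (a j)) ^ i * ∏ k ∈ Finset.univ.erase j, (X + C (a j - a k)) ^ (2 * e)).coeff e := by
  have h1 : (X ^ i * (∏ k, (X - C (a k))) ^ (2 * e)).comp (X + C (a j))
      = X ^ (2 * e) * ((X + C (a j)) ^ i *
        ∏ k ∈ Finset.univ.erase j, (X + C (a j - a k)) ^ (2 * e)) := by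
    rw [mul_comp, pow_comp, X_comp, pow_comp, Polynomial.prod_comp]
    have h2 : ∏ k, (X - C (a k)).comp (X + C (a j))
        = X * ∏ k ∈ Finset.univ.erase j, (X + C (a j - a k)) := by
      rw [← Finset.mul_prod_erase Finset.univ _ (Finset.mem_univ j)]
      congr 1
      · simp
      · refine Finset.prod_congr rfl fun k _ => ?_
        simp only [sub_comp, X_comp, C_comp, map_sub]
        ring
    rw [h2, mul_pow, ← Finset.prod_pow]
    ring
  rw [h1, show 3 * e = e + 2 * e by ring, coeff_X_pow_mul]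

end Nef
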