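import Mathlib

set_option autoImplicit false

open Polynomial

namespace Nef

variable {K : Type*} [Field K]



theorem cc_aux [IsAlgClosed K] {p : ℕ} [Fact p.Prime] [CharP K p] (i : ℕ) :
    ((i.choose (p - 1) : ℕ) : K) = if i % p = p - 1 then 1 else 0 := by
  have hp : p.Prime := Fact.out
  have hp1 : p - 1 < p := Nat.sub_lt hp.pos one_pos
  have h := Choose.choose_modEq_choose_mod_mul_choose_div_nat (n := i) (k := p - 1) (p := p)
  rw [Nat.mod_eq_of_lt hp1, Nat.div_eq_of_lt hp1, Nat.choose_zero_right, mul_one] at h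
  rw [(CharP.natCast_eq_natCast K p).2 h]
  by_cases h2 : i % p = p - 1
  · rw [if_pos h2, h2, Nat.choose_self, Nat.cast_one]
  · rw [if_neg h2, Nat.choose_eq_zero_of_lt, Nat.cast_zero]
    have := Nat.mod_lt i hp.pos
    omega

theorem tay_aux [IsAlgClosed K] {p : ℕ} [Fact p.Prime] [CharP K p] (a : K) (N : ℕ) (G : K[X])
    (hG : G.natDegree < p * N) :
    (taylor a G).coeff (p - 1) =
      ∑ j ∈ Finset.range N, G.coeff (p * j + (p - 1)) * (a ^ p) ^ j := by
  have hp : p.Prime := Fact.out
  have hp1 : p - 1 < p := Nat.sub_lt hp.pos one_pos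
  have h1 : (taylor a G).coeff (p - 1) = ∑ i ∈ Finset.range (p * N),
      G.coeff i * ((i.choose (p - 1) : ℕ) : K) * a ^ (i - (p - 1)) := by
    rw [taylor_coeff, hasseDeriv_apply, sum_over_range' _ _ (p * N) hG, eval_finsetSum]
    · refine Finset.sum_congr rfl fun i _ => ?_
      rw [eval_monomial]
      ring
    · intro n
      simp
  rw [h1]
  symm
  have h2 : ∑ j ∈ Finset.range N, G.coeff (p * j + (p - 1)) * (a ^ p) ^ j =
      ∑ i ∈ (Finset.range N).image (fun j => p * j + (p - 1)),
        G.coeff i * ((i.choose (p - 1) : ℕ) : K) * a ^ (i - (p - 1)) := by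
    rw [Finset.sum_image]
    · refine Finset.sum_congr rfl fun j _ => ?_
      rw [cc_aux, if_pos, mul_one, Nat.add_sub_cancel, pow_mul]
      rw [Nat.mul_add_mod, Nat.mod_eq_of_lt hp1]
    · intro x _ y _ hxy
      have : p * x = p * y := by simpa using hxy
      exact Nat.eq_of_mul_eq_mul_left hp.pos this
  rw [h2]
  refine Finset.sum_subset ?_ ?_
  · intro i hi
    obtain ⟨j, hj, rfl⟩ := Finset.mem_image.1 hi
    rw [Finset.mem_range] at hj ⊢
    calc p * j + (p - 1) < p * j + p := by omega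
      _ = p * (j + 1) := by ring
      _ ≤ p * N := Nat.mul_le_mul_left _ hj
  · intro i hi hni
    rw [cc_aux, if_neg, mul_zero, zero_mul]
    intro hmod
    apply hni
    refine Finset.mem_image.2 ⟨i / p, ?_, ?_⟩
    · rw [Finset.mem_range] at hi ⊢
      exact Nat.div_lt_of_lt_mul hi
    · rw [← hmod]
      exact Nat.div_add_mod i p



theorem no_common_root [IsAlgClosed K] {p : ℕ} [Fact p.Prime] [CharP K p] (Phi : K[X])
    (hPhi : Phi ≠ 0) (h : ∀ a : K, Phi.rootMultiplicity a ≤ p - 1) (β : K) :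
    ∃ n : ℕ, n ≤ p - 1 ∧
      ∑ j ∈ Finset.range (Phi.natDegree + p), (X ^ n * Phi).coeff (p * j + (p - 1)) * β ^ j ≠ 0 := by
  have hp : p.Prime := Fact.out
  obtain ⟨a, ha⟩ := IsAlgClosed.exists_pow_nat_eq β hp.pos
  subst ha
  by_contra hcon
  push Not at hcon
  have hz : ∀ n, n ≤ p - 1 → (taylor a (X ^ n * Phi)).coeff (p - 1) = 0 := by
    intro n hn
    rw [tay_aux a (Phi.natDegree + p)]
    · exact hcon n hn
    · have h1 : (X ^ n * Phi).natDegree ≤ n + Phi.natDegree := by
        refine le_trans natDegree_mul_le ?_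
        rw [natDegree_X_pow]
      have h2 := hp.two_le
      have h3 : 1 * (Phi.natDegree + p) ≤ p * (Phi.natDegree + p) :=
        Nat.mul_le_mul_right _ hp.one_lt.le
      omega
  obtain ⟨Psi, hPsi, hnd⟩ := exists_eq_pow_rootMultiplicity_mul_and_not_dvd Phi hPhi a
  set o := rootMultiplicity a Phi with ho
  have hoa : o ≤ p - 1 := h a
  have hg : ((X - C a) ^ (p - 1 - o) : K[X]) * Phi =
      ∑ n ∈ Finset.range p, C (((X - C a) ^ (p - 1 - o) : K[X]).coeff n) * (X ^ n * Phi) := by
    have h1 : ((X - C a) ^ (p - 1 - o) : K[X]) =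
        ∑ n ∈ Finset.range p, C (((X - C a) ^ (p - 1 - o) : K[X]).coeff n) * X ^ n := by
      refine as_sum_range_C_mul_X_pow' _ ?_
      rw [natDegree_pow, natDegree_X_sub_C, mul_one]
      have := hp.pos
      omega
    conv_lhs => rw [h1]
    rw [Finset.sum_mul]
    refine Finset.sum_congr rfl fun n _ => ?_
    ring
  have hc0 : (taylor a (((X - C a) ^ (p - 1 - o) : K[X]) * Phi)).coeff (p - 1) = 0 := by
    rw [hg, map_sum, finsetSum_coeff]
    refine Finset.sum_eq_zero fun n hn => ?_
    rw [taylor_mul, taylor_C, coeff_C_mul, hz n (by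
      rw [Finset.mem_range] at hn
      omega), mul_zero]
  have hc1 : taylor a (((X - C a) ^ (p - 1 - o) : K[X]) * Phi) = X ^ (p - 1) * taylor a Psi := by
    have h1 : taylor a (X - C a) = X := by
      rw [map_sub, taylor_X, taylor_C, add_sub_cancel_right]
    have h2 : ∀ k : ℕ, taylor a ((X - C a) ^ k) = X ^ k := by
      intro k
      induction k with
      | zero => simp
      | succ k ih => rw [pow_succ, taylor_mul, ih, h1, pow_succ]
    rw [hPsi, taylor_mul, taylor_mul, h2, h2, ← mul_assoc, ← pow_add]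
    congr 2
    omega
  rw [hc1, coeff_X_pow_mul', if_pos le_rfl, Nat.sub_self, taylor_coeff_zero] at hc0
  exact hnd (dvd_iff_isRoot.2 hc0)

end Nef
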