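import Mathlib

set_option autoImplicit false

open Polynomial

namespace Nef

variable {K : Type*} [Field K]

omit K in
theorem numA_aux_one (e i : ℕ) (zz D D' w W Pi h S : ℝ) (hz : 0 < zz) (hD : 0 < D) (hD' : 0 < D')
    (hDz : D ≤ zz ^ 3) (hDz' : D' ≤ zz ^ 3) (hw : 0 ≤ w) (hW : w * zz ≤ W)
    (hPi0 : 0 ≤ Pi) (hPi : Pi ≤ zz ^ 3) (hh : 0 ≤ h)
    (hS : S ≤ zz ^ (3 * (i + 2 * e)) * D' ^ (3 * e))
    (H : h * zz ^ (3 * (3 * e + 1)) ≤ (w * D) ^ (3 * e + 1) * S) :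
    h * Pi ^ (3 * e + 1) * (D * D') ^ 2 ≤
      (D * D') ^ (3 * e + 1) * W ^ (3 * e + 1) * zz ^ (3 * e + 1 + 7 + 3 * i) := by
  refine le_of_mul_le_mul_right ?_ (pow_pos hz (3 * e + 1))
  have hW0 : 0 ≤ W := (mul_nonneg hw hz.le).trans hW
  have hA : h * Pi ^ (3 * e + 1) ≤ h * zz ^ (3 * (3 * e + 1)) :=
    mul_le_mul_of_nonneg_left (by rw [pow_mul]; exact pow_le_pow_left₀ hPi0 hPi _) hh
  have hB : (w * D) ^ (3 * e + 1) * S ≤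
      (w * D) ^ (3 * e + 1) * (zz ^ (3 * (i + 2 * e)) * D' ^ (3 * e)) :=
    mul_le_mul_of_nonneg_left hS (by positivity)
  have hC : (w * zz) ^ (3 * e + 1) ≤ W ^ (3 * e + 1) :=
    pow_le_pow_left₀ (by positivity) hW _
  calc h * Pi ^ (3 * e + 1) * (D * D') ^ 2 * zz ^ (3 * e + 1)
      ≤ ((w * D) ^ (3 * e + 1) * (zz ^ (3 * (i + 2 * e)) * D' ^ (3 * e))) * (D * D') ^ 2 *
        zz ^ (3 * e + 1) := by
        have := hA.trans (H.trans hB)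
        gcongr
    _ = (w * zz) ^ (3 * e + 1) *
        (D ^ (3 * e + 1) * D' ^ (3 * e) * zz ^ (3 * (i + 2 * e)) * (D * D') ^ 2) := by
        rw [mul_pow w D, mul_pow w zz]
        ring
    _ ≤ W ^ (3 * e + 1) *
        (D ^ (3 * e + 1) * D' ^ (3 * e) * zz ^ (3 * (i + 2 * e)) * (D * D') ^ 2) := by
        gcongr
    _ = W ^ (3 * e + 1) * (D * D') ^ (3 * e + 1) * zz ^ (3 * (i + 2 * e)) * (D * (D * D')) := by
        rw [mul_pow D D' (3 * e + 1)]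
        ring
    _ ≤ W ^ (3 * e + 1) * (D * D') ^ (3 * e + 1) * zz ^ (3 * (i + 2 * e)) *
        (zz ^ 3 * (zz ^ 3 * zz ^ 3)) := by
        gcongr
    _ = _ := by ring

omit K in
theorem numA_aux_two (zz a b : ℝ) (hz : 0 < zz) (h1 : 0 < a) (h2 : 0 < b) (h1' : a ≤ zz)
    (h2' : b ≤ zz) : zz * a * b ≤ zz ^ 3 := by
  calc zz * a * b ≤ zz * zz * zz := by gcongr
    _ = zz ^ 3 := by ring

theorem numA (e i : ℕ) (zz xjl xjm xkl xkm wj wk W Pi h Sj Sk : ℝ) (hz : 0 < zz)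
    (h1 : 0 < xjl) (h2 : 0 < xjm) (h3 : 0 < xkl) (h4 : 0 < xkm)
    (h1' : xjl ≤ zz) (h2' : xjm ≤ zz) (h3' : xkl ≤ zz) (h4' : xkm ≤ zz)
    (hwj : 0 ≤ wj) (hwk : 0 ≤ wk) (hWj : wj * zz ≤ W) (hWk : wk * zz ≤ W)
    (hPi0 : 0 ≤ Pi) (hPi : Pi ≤ zz ^ 3) (hh : 0 ≤ h)
    (hSj : Sj ≤ zz ^ (3 * (i + 2 * e)) * (zz * xjl * xjm) ^ (3 * e))
    (hSk : Sk ≤ zz ^ (3 * (i + 2 * e)) * (zz * xkl * xkm) ^ (3 * e))
    (H : h * zz ^ (3 * (3 * e + 1)) ≤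
      max ((wj * (zz * xjl * xjm)) ^ (3 * e + 1) * Sk) ((wk * (zz * xkl * xkm)) ^ (3 * e + 1) * Sj)) :
    h * Pi ^ (3 * e + 1) * (zz * zz * xjl * xjm * xkl * xkm) ^ 2 ≤
      (zz * zz * xjl * xjm * xkl * xkm) ^ (3 * e + 1) * W ^ (3 * e + 1) *
        zz ^ (3 * e + 1 + 7 + 3 * i) := by
  have e1 : zz * zz * xjl * xjm * xkl * xkm = (zz * xjl * xjm) * (zz * xkl * xkm) := by ring
  rcases le_max_iff.mp H with H1 | H1
  · rw [e1]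
    exact numA_aux_one e i zz _ _ wj W Pi h Sk hz (by positivity) (by positivity)
      (numA_aux_two zz xjl xjm hz h1 h2 h1' h2') (numA_aux_two zz xkl xkm hz h3 h4 h3' h4')
      hwj hWj hPi0 hPi hh hSk H1
  · rw [e1, mul_comm (zz * xjl * xjm)]
    exact numA_aux_one e i zz _ _ wk W Pi h Sj hz (by positivity) (by positivity)
      (numA_aux_two zz xkl xkm hz h3 h4 h3' h4') (numA_aux_two zz xjl xjm hz h1 h2 h1' h2')
      hwk hWk hPi0 hPi hh hSj H1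

end Nef
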