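import Mathlib

set_option autoImplicit false

open Polynomial

namespace Nef

variable {K : Type*} [Field K]

theorem numB (e i : ℕ) (zz mu xjl xjm wj wq W Pi h Sj Sq : ℝ) (hz : 0 < zz) (hmu : 0 < mu)
    (hmuz : mu ≤ zz) (h1 : 0 < xjl) (h2 : 0 < xjm) (h1' : xjl ≤ mu) (h2' : xjm ≤ mu)
    (hwj : 0 ≤ wj) (hwq : 0 ≤ wq) (hWj : wj * zz ≤ W) (hWq : wq * mu ≤ W)
    (hPi0 : 0 ≤ Pi) (hPi : Pi ≤ zz ^ 2 * mu) (hh : 0 ≤ h)
    (hSj : Sj ≤ zz ^ (3 * (i + 2 * e)) * (xjl * xjm) ^ (3 * e) * mu ^ (3 * e))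
    (hSq : Sq ≤ zz ^ (3 * (i + 2 * e)) * (zz * zz * zz) ^ (3 * e))
    (H : h * zz ^ (3 * (3 * e + 1)) ≤
      max ((wj * (xjl * xjm * zz)) ^ (3 * e + 1) * Sq) ((wq * (zz * zz * zz)) ^ (3 * e + 1) * Sj)) :
    h * Pi ^ (3 * e + 1) * (zz * zz * zz * xjl * xjm * mu) ^ 2 ≤
      (zz * zz * zz * xjl * xjm * mu) ^ (3 * e + 1) * W ^ (3 * e + 1) *
        zz ^ (3 * e + 1 + 7 + 3 * i) := by
  have hν : 0 < xjl * xjm := mul_pos h1 h2
  set ν := xjl * xjm with hνdef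
  have hW : 0 ≤ W := le_trans (mul_nonneg hwj hz.le) hWj
  have hνμ : ν ≤ mu * mu := mul_le_mul h1' h2' h2.le hmu.le
  have hνzz : ν ≤ zz * zz := hνμ.trans (mul_le_mul hmuz hmuz hmu.le hz.le)
  have hνμ3 : ν * mu ≤ zz ^ 3 := by
    calc ν * mu ≤ (zz * zz) * zz := mul_le_mul hνzz hmuz hmu.le (by positivity)
      _ = zz ^ 3 := by ring
  have hZ : zz * zz * zz * xjl * xjm * mu = zz ^ 3 * (ν * mu) := by rw [hνdef]; ring
  have hPi' : Pi ^ (3 * e + 1) ≤ (zz ^ 2 * mu) ^ (3 * e + 1) := pow_le_pow_left₀ hPi0 hPi _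
  rw [hZ]
  rcases le_max_iff.1 H with H | H
  · have a1 : h * zz ^ (3 * (3 * e + 1)) ≤ (W ^ (3 * e + 1) * ν ^ (3 * e + 1)) *
        (zz ^ (3 * (i + 2 * e)) * (zz * zz * zz) ^ (3 * e)) := by
      refine H.trans ?_
      have b1 : (wj * (ν * zz)) ^ (3 * e + 1) ≤ W ^ (3 * e + 1) * ν ^ (3 * e + 1) := by
        rw [← mul_pow]
        refine pow_le_pow_left₀ (by positivity) ?_ _
        calc wj * (ν * zz) = (wj * zz) * ν := by ring
          _ ≤ W * ν := mul_le_mul_of_nonneg_right hWj hν.le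
      calc (wj * (ν * zz)) ^ (3 * e + 1) * Sq ≤ (wj * (ν * zz)) ^ (3 * e + 1) *
            (zz ^ (3 * (i + 2 * e)) * (zz * zz * zz) ^ (3 * e)) :=
            mul_le_mul_of_nonneg_left hSq (by positivity)
        _ ≤ _ := mul_le_mul_of_nonneg_right b1 (by positivity)
    have a3 : (zz ^ 3 * (ν * mu)) ^ 2 ≤ zz ^ 12 := by
      calc (zz ^ 3 * (ν * mu)) ^ 2 ≤ (zz ^ 3 * zz ^ 3) ^ 2 :=
            pow_le_pow_left₀ (by positivity) (mul_le_mul_of_nonneg_left hνμ3 (by positivity)) _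
        _ = zz ^ 12 := by ring
    refine le_of_mul_le_mul_right ?_ (pow_pos hz (3 * (3 * e + 1)))
    calc h * Pi ^ (3 * e + 1) * (zz ^ 3 * (ν * mu)) ^ 2 * zz ^ (3 * (3 * e + 1)) =
          (h * zz ^ (3 * (3 * e + 1))) * (Pi ^ (3 * e + 1) * (zz ^ 3 * (ν * mu)) ^ 2) := by ring
      _ ≤ ((W ^ (3 * e + 1) * ν ^ (3 * e + 1)) *
        (zz ^ (3 * (i + 2 * e)) * (zz * zz * zz) ^ (3 * e))) *
          ((zz ^ 2 * mu) ^ (3 * e + 1) * zz ^ 12) := by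
        refine mul_le_mul a1 (mul_le_mul hPi' a3 (by positivity) (by positivity)) (by positivity)
          (by positivity)
      _ = (zz ^ 3 * (ν * mu)) ^ (3 * e + 1) * W ^ (3 * e + 1) *
        zz ^ (3 * e + 1 + 7 + 3 * i) * zz ^ (3 * (3 * e + 1)) := by ring
  · have a1 : h ≤ wq ^ (3 * e + 1) * (zz ^ (3 * (i + 2 * e)) * ν ^ (3 * e) * mu ^ (3 * e)) := by
      refine le_of_mul_le_mul_right ?_ (pow_pos hz (3 * (3 * e + 1)))
      refine H.trans ?_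
      calc (wq * (zz * zz * zz)) ^ (3 * e + 1) * Sj ≤ (wq * (zz * zz * zz)) ^ (3 * e + 1) *
            (zz ^ (3 * (i + 2 * e)) * ν ^ (3 * e) * mu ^ (3 * e)) :=
            mul_le_mul_of_nonneg_left hSj (by positivity)
        _ = wq ^ (3 * e + 1) * (zz ^ (3 * (i + 2 * e)) * ν ^ (3 * e) * mu ^ (3 * e)) *
            zz ^ (3 * (3 * e + 1)) := by ring
    have a2 : h * mu ≤ W ^ (3 * e + 1) * (zz ^ (3 * (i + 2 * e)) * ν ^ (3 * e)) := by
      refine le_of_mul_le_mul_right ?_ (pow_pos hmu (3 * e))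
      have b1 : wq ^ (3 * e + 1) * mu ^ (3 * e + 1) ≤ W ^ (3 * e + 1) := by
        rw [← mul_pow]
        exact pow_le_pow_left₀ (by positivity) hWq _
      calc h * mu * mu ^ (3 * e) = h * mu ^ (3 * e + 1) := by ring
        _ ≤ (wq ^ (3 * e + 1) * (zz ^ (3 * (i + 2 * e)) * ν ^ (3 * e) * mu ^ (3 * e))) *
            mu ^ (3 * e + 1) := mul_le_mul_of_nonneg_right a1 (by positivity)
        _ = (wq ^ (3 * e + 1) * mu ^ (3 * e + 1)) *
            (zz ^ (3 * (i + 2 * e)) * ν ^ (3 * e) * mu ^ (3 * e)) := by ring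
        _ ≤ W ^ (3 * e + 1) * (zz ^ (3 * (i + 2 * e)) * ν ^ (3 * e) * mu ^ (3 * e)) :=
          mul_le_mul_of_nonneg_right b1 (by positivity)
        _ = _ := by ring
    have c1 : h * Pi ^ (3 * e + 1) * (zz ^ 3 * (ν * mu)) ^ 2 ≤
          h * (zz ^ 2 * mu) ^ (3 * e + 1) * (zz ^ 3 * (ν * mu)) ^ 2 :=
      mul_le_mul_of_nonneg_right (mul_le_mul_of_nonneg_left hPi' hh) (by positivity)
    refine c1.trans ?_
    calc h * (zz ^ 2 * mu) ^ (3 * e + 1) * (zz ^ 3 * (ν * mu)) ^ 2 = (h * mu) * ((zz ^ 2) ^ (3 * e + 1) * mu ^ (3 * e) * (zz ^ 6 * (ν * mu)) * (ν * mu)) := by ring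
      _ ≤ (W ^ (3 * e + 1) * (zz ^ (3 * (i + 2 * e)) * ν ^ (3 * e))) *
          ((zz ^ 2) ^ (3 * e + 1) * mu ^ (3 * e) * (zz ^ 6 * (ν * mu)) * zz ^ 3) := by
        refine mul_le_mul a2 (mul_le_mul_of_nonneg_left hνμ3 (by positivity)) (by positivity)
          (by positivity)
      _ = _ := by ring

end Nef
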