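import Mathlib

set_option autoImplicit false

open Polynomial

namespace Nef

variable {K : Type*} [Field K]

theorem recursion {p : ℕ} [Fact p.Prime] [CharP K p] (F : K[X]) (m k j : ℕ) :
    (((C (k : K) * X ^ (k - 1) * F + C ((m : K) + 1) * X ^ k * derivative F) * F ^ m).coeff
      (p * j + (p - 1))) = 0 := by
  have hp : 2 ≤ p := (Fact.out : p.Prime).two_le
  have h1 : (C (k : K) * X ^ (k - 1) * F + C ((m : K) + 1) * X ^ k * derivative F) * F ^ m =
      derivative (X ^ k * F ^ (m + 1)) := by
    rw [derivative_mul, derivative_X_pow, derivative_pow, Nat.add_sub_cancel]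
    push_cast
    ring
  rw [h1, coeff_derivative]
  have h2 : ((p * j + (p - 1) : ℕ) : K) + 1 = 0 := by
    have h3 : ((p * j + (p - 1) : ℕ) : K) + 1 = ((p * (j + 1) : ℕ) : K) := by
      have h4 : p * j + (p - 1) + 1 = p * (j + 1) := by
        rw [Nat.mul_add, Nat.mul_one]
        omega
      rw [← h4]
      push_cast
      ring
    rw [h3, Nat.cast_mul, CharP.cast_eq_zero, zero_mul]
  rw [h2, mul_zero]

end Nef
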