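import Pool.Agent.Helper693.Nef.CoeffComp
import Pool.Agent.Helper693.Nef.CoeffFactor
import Pool.Agent.Helper693.Nef.Bound3
import Pool.Agent.Helper693.Nef.Bound2
import Pool.Agent.Helper693.Nef.NumA
import Pool.Agent.Helper693.Nef.NumB
import Pool.Agent.Helper693.Nef.Closeness
import Pool.Agent.Helper693.Nef.NoCommonRoot
import Pool.Agent.Helper693.Nef.Recursion

set_option autoImplicit false

open Polynomial

namespace Nef

variable {K : Type*} [Field K]

theorem wedge {p : ℕ} [Fact p.Prime] [CharP K p] (u0 u1 a b c c' : K) :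
    (u0 + u1 * a) ^ p * (c + c' * b ^ p) - (u0 + u1 * b) ^ p * (c + c' * a ^ p) =
      (b - a) ^ p * (u0 ^ p * c' - u1 ^ p * c) := by
  rw [add_pow_char, add_pow_char, sub_pow_char, mul_pow, mul_pow]
  ring

end Nef
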