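import Mathlib

set_option autoImplicit false

open Polynomial

namespace Nef

variable {K : Type*} [Field K]

theorem ccc_choose {p : ℕ} [Fact p.Prime] [CharP K p] (n : ℕ) :
    ((n.choose (p - 1) : ℕ) : K) = if n % p = p - 1 then 1 else 0 := by
  have hp : p.Prime := Fact.out
  have hp1 : 1 ≤ p := hp.one_le
  have h1 := Choose.choose_modEq_choose_mod_mul_choose_div_nat (n := n) (k := p - 1) (p := p)
  have hk : (p - 1) % p = p - 1 := Nat.mod_eq_of_lt (by omega)
  have hk2 : (p - 1) / p = 0 := Nat.div_eq_of_lt (by omega)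
  rw [hk, hk2, Nat.choose_zero_right, mul_one] at h1
  have h2 : ((n.choose (p - 1) : ℕ) : K) = (((n % p).choose (p - 1) : ℕ) : K) :=
    (CharP.natCast_eq_natCast K p).2 h1
  rw [h2]
  have h3 : n % p < p := Nat.mod_lt n hp.pos
  split_ifs with h
  · rw [h, Nat.choose_self, Nat.cast_one]
  · rw [Nat.choose_eq_zero_of_lt (by omega), Nat.cast_zero]

theorem coeff_comp_char {p : ℕ} [Fact p.Prime] [CharP K p] (G : K[X]) (a : K) :
    (G.comp (X + C a)).coeff (p - 1) =
      ∑ j ∈ Finset.range (G.natDegree + 1), G.coeff (p * j + (p - 1)) * a ^ (p * j) := by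
  have hp : p.Prime := Fact.out
  have hp1 : 1 ≤ p := hp.one_le
  obtain ⟨f, hf⟩ : ∃ f : ℕ → K, f = fun n => G.coeff n * (a ^ (n - (p - 1)) *
      (if n % p = p - 1 then 1 else 0)) := ⟨_, rfl⟩
  have h1 : (G.comp (X + C a)).coeff (p - 1) = ∑ n ∈ Finset.range (G.natDegree + 1), f n := by
    rw [comp, eval₂_eq_sum_range, finsetSum_coeff, hf]
    refine Finset.sum_congr rfl fun n _ => ?_
    rw [coeff_C_mul, coeff_X_add_C_pow, ccc_choose]
  have h2 : ∑ n ∈ Finset.range (G.natDegree + 1), f n =
      ∑ n ∈ Finset.range (p * (G.natDegree + 1)), f n := by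
    refine Finset.sum_subset ?_ ?_
    · intro n hn
      rw [Finset.mem_range] at hn ⊢
      exact hn.trans_le (Nat.le_mul_of_pos_left _ hp.pos)
    · intro n _ hn
      rw [Finset.mem_range, not_lt] at hn
      rw [hf]
      beta_reduce
      rw [coeff_eq_zero_of_natDegree_lt (by omega), zero_mul]
  have h3 : ∑ n ∈ Finset.range (p * (G.natDegree + 1)), f n =
      ∑ n ∈ (Finset.range (p * (G.natDegree + 1))).filter (fun n => n % p = p - 1), f n := by
    rw [Finset.sum_filter]
    refine Finset.sum_congr rfl fun n _ => ?_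
    rw [hf]
    beta_reduce
    split_ifs <;> simp
  rw [h1, h2, h3]
  refine Finset.sum_nbij' (fun n => n / p) (fun j => p * j + (p - 1)) ?_ ?_ ?_ ?_ ?_
  · intro n hn
    rw [Finset.mem_filter, Finset.mem_range] at hn
    rw [Finset.mem_range]
    exact Nat.div_lt_of_lt_mul hn.1
  · intro j hj
    rw [Finset.mem_range] at hj
    rw [Finset.mem_filter, Finset.mem_range]
    refine ⟨?_, ?_⟩
    · have h4 : p * (j + 1) ≤ p * (G.natDegree + 1) := Nat.mul_le_mul_left p (by omega)
      rw [Nat.mul_add, mul_one] at h4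
      omega
    · rw [Nat.mul_add_mod]
      exact Nat.mod_eq_of_lt (by omega)
  · intro n hn
    rw [Finset.mem_filter, Finset.mem_range] at hn
    have h4 := Nat.div_add_mod n p
    beta_reduce
    omega
  · intro j hj
    beta_reduce
    rw [Nat.mul_add_div hp.pos, Nat.div_eq_of_lt (by omega), add_zero]
  · intro n hn
    rw [Finset.mem_filter, Finset.mem_range] at hn
    have h4 := Nat.div_add_mod n p
    have h5 : p * (n / p) + (p - 1) = n := by omega
    have h6 : n - (p - 1) = p * (n / p) := by omega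
    rw [hf]
    beta_reduce
    rw [h5, if_pos hn.2, mul_one, h6]

end Nef
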