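import Mathlib

set_option autoImplicit false

open Polynomial

namespace Nef

theorem N14 {k : Type*} [Field k] [IsAlgClosed k] (p r : ℕ) [Fact p.Prime] [CharP k p]
    (hr : 1 ≤ r) (hp : 2 * r < p) :
    ∃ τ : k, τ ≠ 0 ∧ τ ≠ 1 ∧ (((X - C 1) * (X - C τ)) ^ r : k[X]).coeff r = 0 := by
  have hpp : p.Prime := Fact.out
  have coeff_X_sub_C_pow : ∀ (c : k) (n l : ℕ), ((X - C c) ^ n : k[X]).coeff l
      = (-c) ^ (n - l) * ((n.choose l : ℕ) : k) := by
    intro c n l
    rw [sub_eq_add_neg, ← C_neg, coeff_X_add_C_pow]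
  let q : k[X] := ∑ i ∈ Finset.range (r + 1), C (((r.choose i : ℕ) : k) ^ 2) * X ^ i
  have heval : ∀ τ : k, q.eval τ
      = ∑ i ∈ Finset.range (r + 1), ((r.choose i : ℕ) : k) ^ 2 * τ ^ i := by
    intro τ
    simp only [q, eval_finsetSum, eval_mul, eval_C, eval_pow, eval_X]
  have hcoef : ∀ τ : k, (((X - C 1) * (X - C τ)) ^ r : k[X]).coeff r
      = (-1) ^ r * q.eval τ := by
    intro τ
    have hanti : ∑ x ∈ Finset.HasAntidiagonal.antidiagonal r,
        ((X - C (1:k)) ^ r : k[X]).coeff x.1 * ((X - C τ) ^ r : k[X]).coeff x.2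
        = ∑ i ∈ Finset.range (r + 1),
          ((X - C (1:k)) ^ r : k[X]).coeff i * ((X - C τ) ^ r : k[X]).coeff (r - i) :=
      Finset.Nat.sum_antidiagonal_eq_sum_range_succ (fun a b : ℕ =>
        ((X - C (1:k)) ^ r : k[X]).coeff a * ((X - C τ) ^ r : k[X]).coeff b) r
    rw [mul_pow, coeff_mul, hanti, heval, Finset.mul_sum]
    refine Finset.sum_congr rfl fun i hi => ?_
    have hir : i ≤ r := by
      have := Finset.mem_range.mp hi
      omega
    rw [coeff_X_sub_C_pow, coeff_X_sub_C_pow, Nat.sub_sub_self hir, Nat.choose_symm hir]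
    have e1 : (-τ) ^ i = (-1 : k) ^ i * τ ^ i := neg_pow τ i
    have e2 : (-1 : k) ^ (r - i) * (-1) ^ i = (-1) ^ r := by
      rw [← pow_add, Nat.sub_add_cancel hir]
    rw [e1, ← e2]
    ring
  have hqr : q.coeff r = 1 := by
    simp only [q, finsetSum_coeff, coeff_C_mul, coeff_X_pow]
    rw [Finset.sum_eq_single r]
    · simp
    · intro i _ hi
      rw [if_neg (Ne.symm hi), mul_zero]
    · intro h
      exact absurd (Finset.mem_range.mpr (Nat.lt_succ_self r)) h
  have hdeg : q.degree ≠ 0 := by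
    intro h0
    have h1 : r ≤ q.natDegree := le_natDegree_of_ne_zero (by rw [hqr]; exact one_ne_zero)
    have h2 : q.natDegree = 0 := natDegree_eq_of_degree_eq_some h0
    omega
  obtain ⟨τ, hτ⟩ := IsAlgClosed.exists_root q hdeg
  have hτ0 : q.eval τ = 0 := hτ
  refine ⟨τ, ?_, ?_, ?_⟩
  · rintro rfl
    rw [heval, Finset.sum_eq_single 0] at hτ0
    · simp at hτ0
    · intro i _ hi
      rw [zero_pow hi, mul_zero]
    · intro h
      exact absurd (Finset.mem_range.mpr (Nat.succ_pos r)) h
  · rintro rfl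
    have h1 := hcoef 1
    rw [hτ0, mul_zero, ← sq, ← pow_mul, coeff_X_sub_C_pow] at h1
    have h2 : (((2 * r).choose r : ℕ) : k) = 0 := by
      rcases mul_eq_zero.mp h1 with h | h
      · exact absurd h (pow_ne_zero _ (neg_ne_zero.mpr one_ne_zero))
      · exact h
    rw [CharP.cast_eq_zero_iff k p] at h2
    have h3 : p ∣ (2 * r).factorial := by
      rw [← Nat.choose_mul_factorial_mul_factorial (by omega : r ≤ 2 * r), mul_assoc]
      exact Dvd.dvd.mul_right h2 _
    have h4 := (hpp.dvd_factorial).mp h3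
    omega
  · rw [hcoef, hτ0, mul_zero]


theorem N15 {k : Type*} [Field k] (p r : ℕ) [Fact p.Prime] [CharP k p]
    (hr : 1 ≤ r) (hp : 2 * r < p) (τ : k) (hτ : τ ≠ 0)
    (h : (((X - C 1) * (X - C τ)) ^ r : k[X]).coeff r = 0) :
    (((X - C 1) * (X - C τ)) ^ r : k[X]).coeff (r + 1) ≠ 0 := by
  intro h1
  set Q : k[X] := (X - C 1) * (X - C τ) with hQ
  have hQe : Q = X * X - C (1 + τ) * X + C τ := by
    rw [hQ, C_add, C_1]; ring
  set U : k[X] := Q ^ r with hU
  have hQd : derivative Q = C 2 * X - C (1 + τ) := by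
    rw [hQe]
    simp only [derivative_add, derivative_sub, derivative_mul, derivative_X, derivative_C]
    have : (C 2 : k[X]) = 2 := map_ofNat C 2
    rw [this]
    ring
  have hUd : Q * derivative U = C (r : k) * ((C 2 * X - C (1 + τ)) * U) := by
    rw [hU, derivative_pow, hQd]
    obtain ⟨s, rfl⟩ : ∃ s, r = s + 1 := ⟨r - 1, by omega⟩
    rw [Nat.add_sub_cancel]
    ring
  have hUd2 : X * (X * derivative U) - C (1 + τ) * (X * derivative U) + C τ * derivative U =
      C ((r : k) * 2) * (X * U) - C ((r : k) * (1 + τ)) * U := by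
    have e1 : X * (X * derivative U) - C (1 + τ) * (X * derivative U) + C τ * derivative U =
        Q * derivative U := by rw [hQe]; ring
    rw [e1, hUd, C_mul, C_mul]
    ring
  have hXd : ∀ n, (X * derivative U).coeff n = n * U.coeff n := by
    intro n
    cases n with
    | zero => simp
    | succ m => rw [coeff_X_mul, coeff_derivative]; push_cast; ring
  have hrec : ∀ n : ℕ, (n : k) * U.coeff n - (1 + τ) * (((n + 1 : ℕ) : k) * U.coeff (n + 1)) +
      τ * (U.coeff (n + 2) * ((n + 1 : ℕ) + 1)) =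
      (r : k) * 2 * U.coeff n - (r : k) * (1 + τ) * U.coeff (n + 1) := by
    intro n
    have := congrArg (fun P : k[X] => P.coeff (n + 1)) hUd2
    simp only [coeff_add, coeff_sub, coeff_C_mul] at this
    have e5 : (X * (X * derivative U)).coeff (n + 1) = (X * derivative U).coeff n :=
      coeff_X_mul _ _
    have e6 : (X * U).coeff (n + 1) = U.coeff n := coeff_X_mul _ _
    rw [e5, e6, hXd, hXd, coeff_derivative] at this
    exact this
  have hdown : ∀ j, j ≤ r → U.coeff (r - j) = 0 ∧ U.coeff (r - j + 1) = 0 := by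
    intro j
    induction j with
    | zero => intro _; exact ⟨h, h1⟩
    | succ j ih =>
      intro hj
      obtain ⟨a1, a2⟩ := ih (by omega)
      have e1 : r - j = r - (j + 1) + 1 := by omega
      rw [e1] at a1 a2
      refine ⟨?_, a1⟩
      have hr1 := hrec (r - (j + 1))
      rw [a1, a2] at hr1
      have h2 : (((2 * r - (r - (j + 1)) : ℕ)) : k) * U.coeff (r - (j + 1)) = 0 := by
        rw [Nat.cast_sub (by omega)]
        push_cast
        linear_combination (-1 : k) * hr1
      rcases mul_eq_zero.1 h2 with h3 | h3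
      · exfalso
        rw [CharP.cast_eq_zero_iff k p] at h3
        have := Nat.le_of_dvd (by omega) h3
        omega
      · exact h3
  have h0 := (hdown r le_rfl).1
  rw [Nat.sub_self, hU, coeff_zero_eq_eval_zero, eval_pow, hQe] at h0
  simp at h0
  exact hτ h0.1



end Nef
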