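import Pool.Agent.Helper693.Nef.EXc
import Pool.Agent.Helper693.Nef.N1415

set_option autoImplicit false

open Polynomial

namespace Nef

/-- The generic quadruple. -/
noncomputable def aR (k : Type) [Field k] : Fin 4 → k[X][X] := ![0, 1, C X, X]

/-- The coefficient polynomials. -/
noncomputable def Emn (k : Type) [Field k] (m n : ℕ) : k[X][X] := (NefMod.fP (aR k) ^ m).coeff n

theorem Emn_map {k S : Type} [Field k] [CommRing S] (ψ : k[X][X] →+* S) (m n : ℕ) :
    ψ (Emn k m n) = (NefMod.fP (![0, 1, ψ (C X), ψ X] : Fin 4 → S) ^ m).coeff n := by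
  unfold Emn
  rw [← coeff_map, Polynomial.map_pow]
  congr 2
  unfold NefMod.fP
  rw [Polynomial.map_prod, Fin.prod_univ_four, Fin.prod_univ_four]
  simp [aR]

/-- The cubic. -/
noncomputable def Qc (k : Type) [Field k] : k[X][X] := X * (X - 1) * (X - C X)

theorem Qc_monic (k : Type) [Field k] : (Qc k).Monic := by
  unfold Qc
  exact (monic_X.mul (monic_X_sub_C 1)).mul (monic_X_sub_C X)

theorem Qc_natDegree (k : Type) [Field k] : (Qc k).natDegree = 3 := by
  unfold Qc
  have h1 : (X - 1 : k[X][X]) = X - C 1 := by simp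
  rw [h1, (monic_X.mul (monic_X_sub_C 1)).natDegree_mul (monic_X_sub_C X),
    monic_X.natDegree_mul (monic_X_sub_C 1), natDegree_X, natDegree_X_sub_C, natDegree_X_sub_C]

theorem fP_aR (k : Type) [Field k] :
    NefMod.fP (aR k) = (Qc k).map (C : k[X] →+* k[X][X]) * (X - C X) := by
  unfold NefMod.fP Qc
  rw [Fin.prod_univ_four]
  simp [aR]

theorem Emn_eq (k : Type) [Field k] (m n : ℕ) :
    Emn k m n = ∑ x ∈ Finset.HasAntidiagonal.antidiagonal n, C ((Qc k ^ m).coeff x.1) *
      ((-X) ^ (m - x.2) * ((m.choose x.2 : ℕ) : k[X][X])) := by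
  unfold Emn
  rw [fP_aR, mul_pow, coeff_mul]
  refine Finset.sum_congr rfl fun x _ => ?_
  have h1 : (X - C (X : k[X][X])) = X + C (-X) := by rw [C_neg]; ring
  rw [← Polynomial.map_pow, coeff_map, h1, coeff_X_add_C_pow]

theorem term_natDegree (k : Type) [Field k] (m j : ℕ) (q : k[X]) :
    (C q * ((-X) ^ (m - j) * ((m.choose j : ℕ) : k[X][X]))).natDegree ≤ m - j := by
  refine (natDegree_C_mul_le _ _).trans ?_
  refine natDegree_mul_le.trans ?_
  rw [natDegree_natCast, add_zero]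
  refine natDegree_pow_le.trans ?_
  rw [natDegree_neg, natDegree_X, mul_one]

theorem Emn_natDegree_le (k : Type) [Field k] (m n : ℕ) : (Emn k m n).natDegree ≤ m := by
  rw [Emn_eq]
  refine natDegree_sum_le_of_forall_le _ _ fun x _ => ?_
  exact (term_natDegree k m x.2 _).trans (Nat.sub_le _ _)

theorem Emn_coeff (k : Type) [Field k] (m n : ℕ) (hm : 1 ≤ m) :
    (Emn k m n).coeff m = (-1) ^ m * (Qc k ^ m).coeff n := by
  rw [Emn_eq, finsetSum_coeff, Finset.sum_eq_single (n, 0)]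
  · have h1 : ((-X : k[X][X]) ^ m) = C ((-1) ^ m) * X ^ m := by
      rw [C_pow, C_neg, C_1]; exact neg_pow X m
    rw [Nat.sub_zero, Nat.choose_zero_right, Nat.cast_one, mul_one, coeff_C_mul, h1,
      coeff_C_mul, coeff_X_pow_self, mul_one, mul_comm]
  · rintro ⟨i, j⟩ hx hne
    rw [Finset.HasAntidiagonal.mem_antidiagonal] at hx
    have hj : j ≠ 0 := by
      rintro rfl
      apply hne
      simp only [add_zero] at hx
      rw [hx]
    apply coeff_eq_zero_of_natDegree_lt
    refine (term_natDegree k m j _).trans_lt ?_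
    omega
  · intro h
    exact absurd (by simp) h

theorem Qc_coeff_top (k : Type) [Field k] (m : ℕ) : (Qc k ^ m).coeff (3 * m) = 1 := by
  have h := ((Qc_monic k).pow m).coeff_natDegree
  rwa [(Qc_monic k).natDegree_pow, Qc_natDegree, mul_comm] at h

theorem Qc_coeff_gt (k : Type) [Field k] (m n : ℕ) (h : 3 * m < n) : (Qc k ^ m).coeff n = 0 := by
  apply coeff_eq_zero_of_natDegree_lt
  rw [(Qc_monic k).natDegree_pow, Qc_natDegree]
  omega

theorem Emn_natDegree_lt (k : Type) [Field k] (m n : ℕ) (hm : 1 ≤ m) (h : 3 * m < n) :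
    (Emn k m n).natDegree ≤ m - 1 := by
  have h1 := Emn_natDegree_le k m n
  have h2 := Emn_coeff k m n hm
  rw [Qc_coeff_gt k m n h, mul_zero] at h2
  by_contra hc
  have h3 : (Emn k m n).natDegree = m := by omega
  have h4 : (Emn k m n).leadingCoeff = 0 := by rw [leadingCoeff, h3, h2]
  rw [leadingCoeff_eq_zero] at h4
  rw [h4, natDegree_zero] at h3
  omega

/-- Specialisation at `u = 0`, `w = τ`. -/
noncomputable def spec0 {k : Type} [Field k] (τ : k) : k[X][X] →+* k :=
  eval₂RingHom (evalRingHom 0) τ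

theorem spec0_apply {k : Type} [Field k] (τ : k) (G : k[X][X]) :
    spec0 τ G = (G.map (evalRingHom 0)).eval τ := by
  rw [eval_map]; rfl

theorem spec0_Emn {k : Type} [Field k] (τ : k) (m n : ℕ) :
    spec0 τ (Emn k m n) =
      if 2 * m ≤ n then (((X - C 1) * (X - C τ)) ^ m : k[X]).coeff (n - 2 * m) else 0 := by
  rw [Emn_map]
  have h1 : spec0 τ (C X : k[X][X]) = 0 := by simp [spec0]
  have h2 : spec0 τ (X : k[X][X]) = τ := by simp [spec0]
  rw [h1, h2]
  have h3 : NefMod.fP (![0, 1, 0, τ] : Fin 4 → k) = X ^ 2 * ((X - C 1) * (X - C τ)) := by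
    unfold NefMod.fP
    rw [Fin.prod_univ_four]
    simp
    ring
  rw [h3, mul_pow, ← pow_mul, coeff_X_pow_mul']

/-- Existence of the curve, `p ≡ 1 mod 3`. -/
theorem EX1 (p r : ℕ) [Fact p.Prime] (hp : p = 3 * r + 1) (hr : 2 ≤ r) :
    ∃ (K : Type) (_ : Field K) (_ : Algebra (AlgebraicClosure (ZMod p)) K)
      (_ : FF.IsFF (AlgebraicClosure (ZMod p)) K) (c : NefMod.Cub K) (u w : K),
      c.a = ![0, 1, u, w] ∧ u ∉ Set.range (algebraMap (AlgebraicClosure (ZMod p)) K) ∧
      (NefMod.fP c.a ^ r).coeff (p - 1) = 0 := by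
  set k := AlgebraicClosure (ZMod p) with hk
  have : CharP k p := inferInstance
  obtain ⟨τ, hτ0, hτ1, hτ⟩ := N14 (k := k) p r (by omega) (by omega)
  have hp1 : p - 1 = 3 * r := by omega
  have hmon : ((-1) ^ r * Emn k r (p - 1)).Monic := by
    have hC : ((-1) ^ r : k[X][X]) = C ((-1) ^ r) := by simp
    apply monic_of_natDegree_le_of_coeff_eq_one r
    · rw [hC]
      exact (natDegree_C_mul_le _ _).trans (Emn_natDegree_le k r _)
    · rw [hC, coeff_C_mul, Emn_coeff k r _ (by omega), hp1, Qc_coeff_top, mul_one, ← mul_pow]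
      norm_num
  have hz : spec0 τ (Emn k r (p - 1)) = 0 := by
    rw [spec0_Emn, if_pos (by omega)]
    have : p - 1 - 2 * r = r := by omega
    rw [this, hτ]
  obtain ⟨K, i1, i2, i3, c, ψ, -, h2, h3, h4, -⟩ := exists_cub _ hmon τ hτ0 hτ1 (by
    rw [← spec0_apply, map_mul, hz, mul_zero])
  refine ⟨K, i1, i2, i3, c, ψ (C X), ψ X, h2, h3, ?_⟩
  rw [h2, ← Emn_map]
  rw [map_mul, map_pow, map_neg, map_one] at h4
  exact (mul_eq_zero.1 h4).resolve_left (pow_ne_zero _ (neg_ne_zero.2 one_ne_zero))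

/-- Existence of the curve, `p ≡ 2 mod 3`. -/
theorem EX2 (p r : ℕ) [Fact p.Prime] (hp : p = 3 * r + 2) (hr : 1 ≤ r) :
    ∃ (K : Type) (_ : Field K) (_ : Algebra (AlgebraicClosure (ZMod p)) K)
      (_ : FF.IsFF (AlgebraicClosure (ZMod p)) K) (c : NefMod.Cub K) (u w : K),
      c.a = ![0, 1, u, w] ∧ u ∉ Set.range (algebraMap (AlgebraicClosure (ZMod p)) K) ∧
      (NefMod.fP c.a ^ (2 * r + 1)).coeff (p - 1) * (NefMod.fP c.a ^ r).coeff (p - 1) ^ p +
        (NefMod.fP c.a ^ (2 * r + 1)).coeff (2 * p - 1) * (NefMod.fP c.a ^ r).coeff (p - 2) ^ p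
          = 0 ∧
      (NefMod.fP c.a ^ r).coeff (p - 1) ≠ 0 := by
  set k := AlgebraicClosure (ZMod p) with hk
  have : CharP k p := inferInstance
  obtain ⟨τ, hτ0, hτ1, hτ⟩ := N14 (k := k) p r (by omega) (by omega)
  have hτ2 := N15 (k := k) p r hr (by omega) τ hτ0 hτ
  set E : k[X][X] := Emn k (2 * r + 1) (p - 1) * Emn k r (p - 1) ^ p +
    Emn k (2 * r + 1) (2 * p - 1) * Emn k r (p - 2) ^ p with hE
  have hp2 : p - 2 = 3 * r := by omega
  have hp3 : 2 * p - 1 = 3 * (2 * r + 1) := by omega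
  have hlt : (2 * r + 1) + p * (r - 1) < (2 * r + 1) + p * r := by
    have : p * (r - 1) < p * r := Nat.mul_lt_mul_of_pos_left (by omega) (by omega)
    omega
  have hd1 : (Emn k (2 * r + 1) (p - 1) * Emn k r (p - 1) ^ p).natDegree ≤
      (2 * r + 1) + p * (r - 1) := by
    refine natDegree_mul_le.trans (add_le_add (Emn_natDegree_le _ _ _) ?_)
    exact natDegree_pow_le.trans (Nat.mul_le_mul_left _ (Emn_natDegree_lt k r _ hr (by omega)))
  have hd2' : (Emn k r (p - 2) ^ p).natDegree ≤ p * r :=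
    natDegree_pow_le.trans (Nat.mul_le_mul_left _ (Emn_natDegree_le k r _))
  have hd2 : (Emn k (2 * r + 1) (2 * p - 1) * Emn k r (p - 2) ^ p).natDegree ≤
      (2 * r + 1) + p * r :=
    natDegree_mul_le.trans (add_le_add (Emn_natDegree_le _ _ _) hd2')
  have hcoef : E.coeff ((2 * r + 1) + p * r) = (-1) ^ (2 * r + 1) * ((-1) ^ r) ^ p := by
    rw [hE, coeff_add, coeff_eq_zero_of_natDegree_lt (hd1.trans_lt hlt), zero_add,
      coeff_mul_add_eq_of_natDegree_le (Emn_natDegree_le _ _ _) hd2',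
      coeff_pow_of_natDegree_le (Emn_natDegree_le k r _), Emn_coeff k (2 * r + 1) _ (by omega),
      Emn_coeff k r _ hr, hp2, hp3, Qc_coeff_top, Qc_coeff_top, mul_one, mul_one]
  set ε : k[X] := (-1) ^ (2 * r + 1) * ((-1) ^ r) ^ p with hε
  have hε2 : ε * ε = 1 := by
    rw [hε, ← pow_mul, ← pow_add, ← mul_pow]
    norm_num
  have hmon : (C ε * E).Monic := by
    apply monic_of_natDegree_le_of_coeff_eq_one ((2 * r + 1) + p * r)
    · refine (natDegree_C_mul_le _ _).trans ?_
      rw [hE]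
      exact (natDegree_add_le _ _).trans (max_le (hd1.trans hlt.le) hd2)
    · rw [coeff_C_mul, hcoef, hε2]
  have hz : spec0 τ E = 0 := by
    have e1 : spec0 τ (Emn k (2 * r + 1) (p - 1)) = 0 := by
      rw [spec0_Emn, if_neg (by omega)]
    have e2 : spec0 τ (Emn k r (p - 2)) = 0 := by
      rw [spec0_Emn, if_pos (by omega)]
      have : p - 2 - 2 * r = r := by omega
      rw [this, hτ]
    rw [hE, map_add, map_mul, map_mul, map_pow, map_pow, e1, e2, zero_mul, zero_add,
      zero_pow (by omega), mul_zero]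
  obtain ⟨K, i1, i2, i3, c, ψ, -, h2, h3, h4, h5⟩ := exists_cub _ hmon τ hτ0 hτ1 (by
    rw [← spec0_apply, map_mul, hz, mul_zero])
  refine ⟨K, i1, i2, i3, c, ψ (C X), ψ X, h2, h3, ?_, ?_⟩
  · have h6 : ψ E = 0 := by
      rw [map_mul] at h4
      have h7 : ψ (C ε) ≠ 0 := by
        intro h0
        have := congrArg (fun x => ψ (C x)) hε2
        simp only [map_mul, map_one] at this
        rw [h0, mul_zero] at this
        exact zero_ne_one this
      exact (mul_eq_zero.1 h4).resolve_left h7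
    rw [hE, map_add, map_mul, map_mul, map_pow, map_pow, Emn_map, Emn_map, Emn_map, Emn_map] at h6
    rw [h2]
    exact h6
  · rw [h2, ← Emn_map]
    apply h5
    rw [← spec0_apply, spec0_Emn, if_pos (by omega)]
    have : p - 1 - 2 * r = r + 1 := by omega
    rw [this]
    exact hτ2

end Nef
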