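import Pool.Agent.Helper386.FF.Div

set_option autoImplicit false

open Polynomial

namespace Nef

/-- Finitely generated algebraic extensions of `k(X)` are function fields. -/
theorem isFF_adjoin {k Ω : Type} [Field k] [Field Ω] [Algebra (RatFunc k) Ω] [Algebra k Ω]
    [IsScalarTower k (RatFunc k) Ω] (halg : Algebra.IsAlgebraic (RatFunc k) Ω) (S : Set Ω)
    (hS : S.Finite) : FF.IsFF k (IntermediateField.adjoin (RatFunc k) S) := by
  have := hS.to_subtype
  have hfin : FiniteDimensional (RatFunc k) (IntermediateField.adjoin (RatFunc k) S) :=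
    IntermediateField.finiteDimensional_adjoin
      (fun x _ => (Algebra.IsAlgebraic.isAlgebraic x).isIntegral)
  have h1 : Algebra.EssFiniteType k[X] (RatFunc k) :=
    Algebra.EssFiniteType.of_isLocalization (RatFunc k) (nonZeroDivisors k[X])
  have h2 : Algebra.EssFiniteType k (RatFunc k) := Algebra.EssFiniteType.comp k k[X] (RatFunc k)
  constructor
  · exact Algebra.EssFiniteType.comp k (RatFunc k) _
  · have h3 : Algebra.IsAlgebraic k[X] (RatFunc k) :=
      IsLocalization.isAlgebraic _ (nonZeroDivisors k[X])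
    have e1 := trdeg_add_eq k k[X] (A := RatFunc k)
    have e2 := trdeg_add_eq k (RatFunc k) (A := IntermediateField.adjoin (RatFunc k) S)
    have h4 : Algebra.trdeg (RatFunc k) (IntermediateField.adjoin (RatFunc k) S) = 0 :=
      _root_.trdeg_eq_zero
    have h5 : Algebra.trdeg k[X] (RatFunc k) = 0 := _root_.trdeg_eq_zero
    rw [← e2, h4, add_zero, ← e1, h5, add_zero, Polynomial.trdeg_of_isDomain]

/-- A root over a prescribed root of the specialisation at `X = 0`. -/
theorem lift_root {k Ω : Type} [Field k] [Field Ω] [IsAlgClosed Ω] [Algebra k[X] Ω]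
    (hinj : Function.Injective (algebraMap k[X] Ω)) (E : k[X][X]) (hE : E.Monic) (τ : k)
    (h : (E.map (evalRingHom 0)).eval τ = 0) :
    ∃ w : Ω, (E.map (algebraMap k[X] Ω)).eval w = 0 ∧
      ∀ G : k[X][X], (G.map (evalRingHom 0)).eval τ ≠ 0 →
        (G.map (algebraMap k[X] Ω)).eval w ≠ 0 := by
  let B := integralClosure k[X] Ω
  have hBinj : Function.Injective (algebraMap B Ω) := Subtype.val_injective
  have htow : (algebraMap B Ω).comp (algebraMap k[X] B) = algebraMap k[X] Ω := rfl
  have hkB : Function.Injective (algebraMap k[X] B) := by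
    intro x y hxy
    apply hinj
    rw [← htow, RingHom.comp_apply, RingHom.comp_apply, hxy]
  have hmax : (Ideal.span {(X : k[X])}).IsMaximal :=
    PrincipalIdealRing.isMaximal_of_irreducible Polynomial.irreducible_X
  obtain ⟨Q, hQ, hQ2⟩ := Ideal.exists_ideal_over_maximal_of_isIntegral
    (R := k[X]) (S := B) (Ideal.span {(X : k[X])}) (by
      rw [(RingHom.injective_iff_ker_eq_bot _).1 hkB]; exact bot_le)
  let _ : Field (B ⧸ Q) := Ideal.Quotient.field Q
  let π : B →+* B ⧸ Q := Ideal.Quotient.mk Q
  let ι : k →+* B ⧸ Q := π.comp ((algebraMap k[X] B).comp C)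
  have hfac : π.comp (algebraMap k[X] B) = ι.comp (evalRingHom 0) := by
    ext x
    · simp [ι]
    · simp only [RingHom.comp_apply, coe_evalRingHom, eval_X, map_zero]
      rw [Ideal.Quotient.eq_zero_iff_mem]
      have : (X : k[X]) ∈ Q.comap (algebraMap k[X] B) := by
        rw [hQ2]; exact Ideal.mem_span_singleton_self _
      exact this
  -- roots
  have hsplit := IsAlgClosed.splits (E.map (algebraMap k[X] Ω))
  have hmon : (E.map (algebraMap k[X] Ω)).Monic := hE.map _
  have hroots : E.map (algebraMap k[X] Ω) =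
      ((E.map (algebraMap k[X] Ω)).roots.map fun a => X - C a).prod :=
    hsplit.eq_prod_roots_of_monic hmon
  obtain ⟨s, hs⟩ : ∃ s : Multiset B, s.map (algebraMap B Ω) = (E.map (algebraMap k[X] Ω)).roots := by
    have hc : ∀ a ∈ (E.map (algebraMap k[X] Ω)).roots, ∃ b : B, algebraMap B Ω b = a := by
      intro a ha
      rw [mem_roots hmon.ne_zero, IsRoot.def, eval_map] at ha
      exact ⟨⟨a, E, hE, ha⟩, rfl⟩
    revert hc
    generalize (E.map (algebraMap k[X] Ω)).roots = t
    intro hc
    induction t using Multiset.induction_on with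
    | empty => exact ⟨0, rfl⟩
    | cons a t ih =>
      obtain ⟨s, hs⟩ := ih (fun b hb => hc b (Multiset.mem_cons_of_mem hb))
      obtain ⟨b, hb⟩ := hc a (Multiset.mem_cons_self a t)
      exact ⟨b ::ₘ s, by rw [Multiset.map_cons, hs, hb]⟩
  have hEB : E.map (algebraMap k[X] B) = (s.map fun b => X - C b).prod := by
    apply Polynomial.map_injective _ hBinj
    rw [Polynomial.map_map, htow, hroots, ← hs, Polynomial.map_multiset_prod, Multiset.map_map,
      Multiset.map_map]
    congr 1
    refine Multiset.map_congr rfl fun b _ => ?_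
    simp
  have hEτ : ((E.map (algebraMap k[X] B)).map π).eval (ι τ) = 0 := by
    rw [Polynomial.map_map, hfac, ← Polynomial.map_map, eval_map_apply, h, map_zero]
  rw [hEB, Polynomial.map_multiset_prod, Multiset.map_map, ← coe_evalRingHom, map_multiset_prod,
    Multiset.map_map, Multiset.prod_eq_zero_iff, Multiset.mem_map] at hEτ
  obtain ⟨b, hb, hb0⟩ := hEτ
  have hbτ : ι τ = π b := by
    simp only [Function.comp_apply, Polynomial.map_sub, map_X, map_C, coe_evalRingHom, eval_sub,
      eval_X, eval_C] at hb0
    exact sub_eq_zero.1 hb0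
  refine ⟨algebraMap B Ω b, ?_, ?_⟩
  · have h1 : algebraMap B Ω b ∈ (E.map (algebraMap k[X] Ω)).roots := by
      rw [← hs]; exact Multiset.mem_map_of_mem _ hb
    rw [mem_roots hmon.ne_zero] at h1
    exact h1
  · intro G hG h0
    apply hG
    have h1 : ((G.map (algebraMap k[X] B)).eval b) = 0 := by
      apply hBinj
      rw [map_zero, ← h0, ← htow, ← Polynomial.map_map, eval_map_apply]
    have h2 : ((G.map (algebraMap k[X] B)).map π).eval (π b) = 0 := by
      rw [eval_map_apply, h1, map_zero]
    rw [Polynomial.map_map, hfac, ← Polynomial.map_map, ← hbτ, eval_map_apply] at h2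
    exact (map_eq_zero ι).1 h2

end Nef
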