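import Pool.Agent.Helper693.Nef.EXb
import Pool.Agent.Helper729.NF.Defs

set_option autoImplicit false

open Polynomial

namespace Nef

theorem exists_anti_cube {Ω : Type} [Field Ω] [IsAlgClosed Ω] (a : Fin 4 → Ω) :
    ∃ z : Fin 4 → Fin 4 → Ω, (∀ i j, z i j ^ 3 = a i - a j) ∧ ∀ i j, z j i = - z i j := by
  choose ζ hζ using fun i j => IsAlgClosed.exists_pow_nat_eq (a i - a j) (n := 3) (by norm_num)
  refine ⟨fun i j => if i < j then ζ i j else if j < i then - ζ j i else 0, ?_, ?_⟩
  · intro i j
    dsimp only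
    split_ifs with h1 h2
    · exact hζ i j
    · rw [Odd.neg_pow (by decide), hζ]; ring
    · have : i = j := le_antisymm (not_lt.1 h2) (not_lt.1 h1)
      rw [this]; simp
  · intro i j
    dsimp only
    split_ifs with h1 h2 h2
    · exact absurd h1 (lt_asymm h2)
    · rw [neg_neg]
    · rfl
    · rw [neg_zero]

theorem exists_cub {k : Type} [Field k] (E : k[X][X]) (hE : E.Monic) (τ : k) (hτ0 : τ ≠ 0)
    (hτ1 : τ ≠ 1) (h : (E.map (evalRingHom 0)).eval τ = 0) :
    ∃ (K : Type) (_ : Field K) (_ : Algebra k K) (_ : FF.IsFF k K) (c : NefMod.Cub K)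
      (ψ : k[X][X] →+* K), (∀ x : k, ψ (C (C x)) = algebraMap k K x) ∧
      c.a = ![0, 1, ψ (C X), ψ X] ∧ ψ (C X) ∉ Set.range (algebraMap k K) ∧ ψ E = 0 ∧
      ∀ G : k[X][X], (G.map (evalRingHom 0)).eval τ ≠ 0 → ψ G ≠ 0 := by
  let Ω := AlgebraicClosure (RatFunc k)
  have hinj0 : Function.Injective (algebraMap k[X] (RatFunc k)) := RatFunc.algebraMap_injective k
  have hinj : Function.Injective (algebraMap k[X] Ω) := by
    rw [IsScalarTower.algebraMap_eq k[X] (RatFunc k) Ω]
    exact (algebraMap (RatFunc k) Ω).injective.comp hinj0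
  obtain ⟨w, hw, hG⟩ := lift_root (Ω := Ω) hinj E hE τ h
  let u : Ω := algebraMap k[X] Ω X
  let a : Fin 4 → Ω := ![0, 1, u, w]
  have hu0 : u ≠ 0 := by
    intro h0
    have : (X : k[X]) = 0 := hinj (by rw [map_zero]; exact h0)
    exact X_ne_zero this
  have hu1 : u ≠ 1 := by
    intro h0
    have : (X : k[X]) = 1 := hinj (by rw [map_one]; exact h0)
    have h1 := congrArg natDegree this
    simp at h1
  have hw0 : w ≠ 0 := by
    have := hG X (by simpa using hτ0)
    simpa using this
  have hw1 : w ≠ 1 := by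
    have := hG (X - 1) (by simpa [sub_eq_zero] using hτ1)
    simpa [sub_eq_zero] using this
  have hwu : w ≠ u := by
    have := hG (X - C X) (by simpa using hτ0)
    simpa [sub_eq_zero] using this
  have ha : Function.Injective a := by
    intro i j hij
    fin_cases i <;> fin_cases j <;> first | rfl | (exfalso; simp [a] at hij <;> first | exact hu0 hij | exact hu0 hij.symm | exact hu1 hij | exact hu1 hij.symm | exact hw0 hij | exact hw0 hij.symm | exact hw1 hij | exact hw1 hij.symm | exact hwu hij | exact hwu hij.symm)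
  obtain ⟨z, hz1, hz2⟩ := exists_anti_cube a
  let S : Set Ω := {w} ∪ Set.range (fun x : Fin 4 × Fin 4 => z x.1 x.2)
  have hS : S.Finite := (Set.finite_singleton w).union (Set.finite_range _)
  let K := IntermediateField.adjoin (RatFunc k) S
  have halg : Algebra.IsAlgebraic (RatFunc k) Ω := AlgebraicClosure.isAlgebraic _
  have hFF : FF.IsFF k K := isFF_adjoin halg S hS
  have hSK : S ⊆ K := IntermediateField.subset_adjoin _ _
  let wK : K := ⟨w, hSK (Or.inl rfl)⟩
  let zK : Fin 4 → Fin 4 → K := fun i j => ⟨z i j, hSK (Or.inr ⟨(i, j), rfl⟩)⟩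
  let f : k[X] →+* K := (algebraMap (RatFunc k) K).comp (algebraMap k[X] (RatFunc k))
  let ψ : k[X][X] →+* K := eval₂RingHom f wK
  have hf : (algebraMap K Ω).comp f = algebraMap k[X] Ω := rfl
  have hψ : ∀ G : k[X][X], algebraMap K Ω (ψ G) = (G.map (algebraMap k[X] Ω)).eval w := by
    intro G
    change algebraMap K Ω (eval₂ f wK G) = _
    rw [hom_eval₂, hf, eval_map]
    rfl
  have hKinj : Function.Injective (algebraMap K Ω) := (algebraMap K Ω).injective
  have hψX : ψ X = wK := by simp [ψ]
  have hψC : ψ (C X) = f X := by simp [ψ]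
  let aK : Fin 4 → K := ![0, 1, ψ (C X), ψ X]
  have haK : ∀ i, algebraMap K Ω (aK i) = a i := by
    intro i
    fin_cases i
    · exact map_zero _
    · exact map_one _
    · change algebraMap K Ω (ψ (C X)) = u
      rw [hψ]; simp [u]
    · change algebraMap K Ω (ψ X) = w
      rw [hψ]; simp
  refine ⟨K, inferInstance, inferInstance, hFF,
    { a := aK
      z := zK
      inj := ?_
      cube := ?_
      anti := ?_ }, ψ, ?_, rfl, ?_, ?_, ?_⟩
  · intro i j hij
    apply ha
    rw [← haK, ← haK, hij]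
  · intro i j
    apply hKinj
    rw [map_pow, map_sub, haK, haK]
    exact hz1 i j
  · intro i j
    apply hKinj
    rw [map_neg]
    exact hz2 i j
  · intro x
    change eval₂ f wK (C (C x)) = _
    rw [eval₂_C]
    rfl
  · rintro ⟨x, hx⟩
    have h1 : algebraMap K Ω (ψ (C X)) = algebraMap k[X] Ω (C x) := by
      rw [← hx]
      rfl
    have h2 : algebraMap K Ω (ψ (C X)) = algebraMap k[X] Ω X := by rw [hψ]; simp
    have h3 : (C x : k[X]) = X := hinj (by rw [← h1, h2])
    have := congrArg natDegree h3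
    simp at this
  · apply hKinj
    rw [hψ, hw, map_zero]
  · intro G hG' h0
    apply hG G hG'
    rw [← hψ, h0, map_zero]

end Nef
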