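import Pool.Agent.Helper693.Nef.CBase

set_option autoImplicit false

open Polynomial

namespace Nef

variable {K : Type*} [Field K]

theorem erase4 : ∀ j k l m : Fin 4, j ≠ k → j ≠ l → j ≠ m → k ≠ l → k ≠ m → l ≠ m →
    (Finset.univ.erase j : Finset (Fin 4)) = {k, l, m} := by decide

theorem three_of_four : ∀ j l m q x : Fin 4, j ≠ l → j ≠ m → j ≠ q → l ≠ m → l ≠ q → m ≠ q →
    x ≠ q → x = j ∨ x = l ∨ x = m := by decide

theorem prod_erase4 {M : Type*} [CommMonoid M] (f : Fin 4 → M) (j k l m : Fin 4)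
    (h1 : j ≠ k) (h2 : j ≠ l) (h3 : j ≠ m) (h4 : k ≠ l) (h5 : k ≠ m) (h6 : l ≠ m) :
    ∏ x ∈ Finset.univ.erase j, f x = f k * f l * f m := by
  rw [erase4 j k l m h1 h2 h3 h4 h5 h6, Finset.prod_insert (by simp [h4, h5]),
    Finset.prod_insert (by simp [h6]), Finset.prod_singleton, mul_assoc]

theorem six_prod (x : Fin 4 → Fin 4 → ℝ) (hsym : ∀ i j, x i j = x j i) (j k l m : Fin 4)
    (h1 : j ≠ k) (h2 : j ≠ l) (h3 : j ≠ m) (h4 : k ≠ l) (h5 : k ≠ m) (h6 : l ≠ m) :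
    x 0 1 * x 0 2 * x 0 3 * x 1 2 * x 1 3 * x 2 3 =
      x j k * x l m * x j l * x j m * x k l * x k m := by
  have e1 := hsym 1 0
  have e2 := hsym 2 0
  have e3 := hsym 3 0
  have e4 := hsym 2 1
  have e5 := hsym 3 1
  have e6 := hsym 3 2
  fin_cases j <;> fin_cases k <;> first | (exact absurd rfl h1) | skip
  all_goals (fin_cases l <;> first | (exact absurd rfl h2) | (exact absurd rfl h4) | skip)
  all_goals (fin_cases m <;> first | (exact absurd rfl h3) | (exact absurd rfl h5) | (exact absurd rfl h6) | skip)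
  all_goals (simp only [Fin.mk_one, Fin.zero_eta, Fin.reduceFinMk, e1, e2, e3, e4, e5, e6]; ring)

/-- The quadratic-looking polynomial. -/
noncomputable def Fp (a : Fin 4 → K) : K[X] := ∏ k, (X - C (a k))

theorem Fp_natDegree (a : Fin 4 → K) : (Fp a).natDegree = 4 := by
  unfold Fp
  rw [natDegree_prod_of_monic _ _ (fun k _ => monic_X_sub_C _)]
  simp

theorem Fp_monic (a : Fin 4 → K) : (Fp a).Monic := monic_prod_of_monic _ _ (fun k _ => monic_X_sub_C _)

/-- `h_i`. -/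
noncomputable def hh (a : Fin 4 → K) (p e i : ℕ) (u0 u1 : K) : K :=
  u0 ^ p * (X ^ i * Fp a ^ (2 * e)).coeff (2 * p - 1) - u1 ^ p * (X ^ i * Fp a ^ (2 * e)).coeff (p - 1)

theorem natDegree_XF (a : Fin 4 → K) (e i : ℕ) : (X ^ i * Fp a ^ (2 * e)).natDegree = i + 8 * e := by
  rw [natDegree_mul (pow_ne_zero _ X_ne_zero) (pow_ne_zero _ (Fp_monic a).ne_zero), natDegree_X_pow,
    natDegree_pow, Fp_natDegree]
  ring

theorem T_eq {p e : ℕ} [Fact p.Prime] [CharP K p] (hp : p = 3 * e + 1) (he : 1 ≤ e)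
    (a : Fin 4 → K) (i : ℕ) (hi : i < 3) (j : Fin 4) :
    ((X + C (a j)) ^ i * ∏ k ∈ Finset.univ.erase j, (X + C (a j - a k)) ^ (2 * e)).coeff e =
      (X ^ i * Fp a ^ (2 * e)).coeff (p - 1) + (X ^ i * Fp a ^ (2 * e)).coeff (2 * p - 1) * a j ^ p := by
  rw [← coeff_factor]
  have h := coeff_comp_char (p := p) (X ^ i * Fp a ^ (2 * e)) (a j)
  have e1 : p - 1 = 3 * e := by omega
  rw [e1] at h ⊢
  unfold Fp at h ⊢
  rw [h]
  have hdeg := natDegree_XF a e i
  unfold Fp at hdeg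
  have hsub : ({0, 1} : Finset ℕ) ⊆ Finset.range ((X ^ i * (∏ k, (X - C (a k))) ^ (2 * e)).natDegree + 1) := by
    rw [hdeg]
    intro x hx
    simp only [Finset.mem_insert, Finset.mem_singleton] at hx
    rw [Finset.mem_range]
    omega
  rw [← Finset.sum_subset hsub]
  · rw [Finset.sum_pair (by norm_num)]
    simp only [mul_zero, zero_add, pow_zero, mul_one]
    congr 3
    omega
  · intro x _ hx
    simp only [Finset.mem_insert, Finset.mem_singleton, not_or] at hx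
    rw [coeff_eq_zero_of_natDegree_lt, zero_mul]
    rw [hdeg]
    have : 2 ≤ x := by omega
    have : p * 2 ≤ p * x := Nat.mul_le_mul_left _ this
    omega

theorem star {p e : ℕ} [Fact p.Prime] [CharP K p] (hp : p = 3 * e + 1) (he : 1 ≤ e)
    (v : AbsoluteValue K ℝ) (hv : IsNonarchimedean v)
    (a : Fin 4 → K) (i : ℕ) (hi : i < 3) (u0 u1 : K) (j k : Fin 4) :
    v (hh a p e i u0 u1) * v (a k - a j) ^ p ≤
      max (v (u0 + u1 * a j) ^ p * v (((X + C (a k)) ^ i * ∏ x ∈ Finset.univ.erase k, (X + C (a k - a x)) ^ (2 * e)).coeff e))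
        (v (u0 + u1 * a k) ^ p * v (((X + C (a j)) ^ i * ∏ x ∈ Finset.univ.erase j, (X + C (a j - a x)) ^ (2 * e)).coeff e)) := by
  rw [T_eq hp he a i hi k, T_eq hp he a i hi j]
  have h := wedge (p := p) u0 u1 (a j) (a k) ((X ^ i * Fp a ^ (2 * e)).coeff (p - 1)) ((X ^ i * Fp a ^ (2 * e)).coeff (2 * p - 1))
  have h2 : v (hh a p e i u0 u1) * v (a k - a j) ^ p =
      v ((u0 + u1 * a j) ^ p * ((X ^ i * Fp a ^ (2 * e)).coeff (p - 1) + (X ^ i * Fp a ^ (2 * e)).coeff (2 * p - 1) * a k ^ p) -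
        (u0 + u1 * a k) ^ p * ((X ^ i * Fp a ^ (2 * e)).coeff (p - 1) + (X ^ i * Fp a ^ (2 * e)).coeff (2 * p - 1) * a j ^ p)) := by
    rw [h]
    unfold hh
    rw [v.map_mul, v.map_pow, mul_comm]
  rw [h2, ← v.map_pow, ← v.map_pow, ← v.map_mul, ← v.map_mul, sub_eq_add_neg]
  refine (hv _ _).trans ?_
  rw [v.map_neg]

theorem local_ineq {p e : ℕ} [Fact p.Prime] [CharP K p] (hp : p = 3 * e + 1) (he : 1 ≤ e)
    (v : AbsoluteValue K ℝ) (hv : IsNonarchimedean v) (z : Fin 4 → Fin 4 → K)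
    (hanti : ∀ i j, z j i = - z i j) (hz : ∀ i j, i ≠ j → z i j ≠ 0)
    (a : Fin 4 → K) (ha : ∀ i j, a i - a j = (z i j) ^ 3) (ha3 : a 3 = 0)
    (u0 u1 : K) (w : Fin 4 → K)
    (hw : ∀ i, w i * ∏ k ∈ Finset.univ.erase i, z i k = u0 + u1 * a i)
    (i : ℕ) (hi : i < 3) (zz W Pi : ℝ) (hzz : ∀ i j, i ≠ j → v (z i j) ≤ zz)
    (hmax : ∃ i j, i ≠ j ∧ v (z i j) = zz)
    (hW : ∀ i j k, i ≠ j → i ≠ k → j ≠ k → v (w i) * v (z j k) ≤ W)
    (hPi0 : 0 ≤ Pi)
    (hPi : ∃ i j k l : Fin 4, i ≠ j ∧ i ≠ k ∧ i ≠ l ∧ j ≠ k ∧ j ≠ l ∧ k ≠ l ∧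
      Pi ≤ v (z i j) ^ 2 * v (z k l)) :
    v (hh a p e i u0 u1) * Pi ^ p * v (z 0 1 * z 0 2 * z 0 3 * z 1 2 * z 1 3 * z 2 3) ^ 2 ≤
      v (z 0 1 * z 0 2 * z 0 3 * z 1 2 * z 1 3 * z 2 3) ^ p * W ^ p * zz ^ (p + 7 + 3 * i) := by
  have hsym : ∀ i j, v (z i j) = v (z j i) := fun i j => by rw [hanti j i, v.map_neg]
  have hpos : ∀ i j, i ≠ j → 0 < v (z i j) := fun i j h => v.pos (hz i j h)
  have hzpos : 0 < zz := by
    obtain ⟨i, j, hij, h⟩ := hmax
    rw [← h]; exact hpos i j hij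
  have hult : ∀ i j k, i ≠ j → j ≠ k → i ≠ k → v (z i k) ≤ max (v (z i j)) (v (z j k)) := by
    intro i j k _ _ _
    have h1 : (z i k) ^ 3 = (z i j) ^ 3 + (z j k) ^ 3 := by
      rw [← ha, ← ha, ← ha]; ring
    have h2 : v (z i k) ^ 3 ≤ max (v (z i j)) (v (z j k)) ^ 3 := by
      rw [← v.map_pow, h1]
      refine (hv _ _).trans ?_
      rw [v.map_pow, v.map_pow]
      apply max_le
      · exact pow_le_pow_left₀ (v.nonneg _) (le_max_left _ _) 3
      · exact pow_le_pow_left₀ (v.nonneg _) (le_max_right _ _) 3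
    exact le_of_pow_le_pow_left₀ (by norm_num) (le_max_of_le_left (v.nonneg _)) h2
  have hazz : ∀ j, v (a j) ≤ zz ^ 3 := by
    intro j
    by_cases hj : j = 3
    · rw [hj, ha3, v.map_zero]; positivity
    · have h1 := ha j 3
      rw [ha3, sub_zero] at h1
      rw [h1, v.map_pow]
      exact pow_le_pow_left₀ (v.nonneg _) (hzz j 3 hj) 3
  have hvD : ∀ j k l m : Fin 4, j ≠ k → j ≠ l → j ≠ m → k ≠ l → k ≠ m → l ≠ m →
      v (u0 + u1 * a j) = v (w j) * (v (z j k) * v (z j l) * v (z j m)) := by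
    intro j k l m h1 h2 h3 h4 h5 h6
    rw [← hw j, prod_erase4 _ j k l m h1 h2 h3 h4 h5 h6, v.map_mul, v.map_mul, v.map_mul]
  have hZ : ∀ j k l m : Fin 4, j ≠ k → j ≠ l → j ≠ m → k ≠ l → k ≠ m → l ≠ m →
      v (z 0 1 * z 0 2 * z 0 3 * z 1 2 * z 1 3 * z 2 3) =
        v (z j k) * v (z l m) * v (z j l) * v (z j m) * v (z k l) * v (z k m) := by
    intro j k l m h1 h2 h3 h4 h5 h6
    rw [← six_prod (fun i j => v (z i j)) hsym j k l m h1 h2 h3 h4 h5 h6]
    simp only [v.map_mul]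
  -- bound on `S_j`
  have hS3 : ∀ j k l m : Fin 4, j ≠ k → j ≠ l → j ≠ m → k ≠ l → k ≠ m → l ≠ m →
      v (((X + C (a j)) ^ i * ∏ x ∈ Finset.univ.erase j, (X + C (a j - a x)) ^ (2 * e)).coeff e) ≤
        zz ^ (3 * (i + 2 * e)) * (v (z j k) * v (z j l) * v (z j m)) ^ (3 * e) := by
    intro j k l m h1 h2 h3 h4 h5 h6
    rw [prod_erase4 _ j k l m h1 h2 h3 h4 h5 h6]
    have hc : ∀ x, j ≠ x → v (a j - a x) ≤ zz ^ 3 := fun x hx => by
      rw [ha, v.map_pow]; exact pow_le_pow_left₀ (v.nonneg _) (hzz j x hx) 3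
    have := bound3 v hv e i (a j) (a j - a k) (a j - a l) (a j - a m) (zz ^ 3) (by positivity)
      (hazz j) (hc k h1) (hc l h2) (hc m h3)
    refine this.trans (le_of_eq ?_)
    rw [ha, ha, ha, v.map_pow, v.map_pow, v.map_pow]
    ring
  subst hp
  rcases closeness (fun i j => v (z i j)) zz hsym hpos hzz hmax hult with
    ⟨j, k, l, m, h1, h2, h3, h4, h5, h6, hjk, hlm⟩ | ⟨j, l, m, q, h1, h2, h3, h4, h5, h6, hjq, hlq, hmq, hjl, hjm⟩
  · -- matching case
    have hst := star rfl he v hv a i hi u0 u1 j k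
    rw [ha k j, v.map_pow, ← hsym j k, hjk, ← pow_mul, hvD j k l m h1 h2 h3 h4 h5 h6,
      hvD k j l m h1.symm h4 h5 h2 h3 h6, hsym k j, hjk] at hst
    rw [hZ j k l m h1 h2 h3 h4 h5 h6, hjk, hlm]
    have hPi' : Pi ≤ zz ^ 3 := by
      obtain ⟨a', b', c', d', g1, g2, g3, g4, g5, g6, hP⟩ := hPi
      refine hP.trans ?_
      have e1 := hzz a' b' g1
      have e2 := hzz c' d' g6
      have e3 := (hpos a' b' g1).le
      calc v (z a' b') ^ 2 * v (z c' d') ≤ zz ^ 2 * zz := by gcongr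
        _ = zz ^ 3 := by ring
    refine numA e i zz (v (z j l)) (v (z j m)) (v (z k l)) (v (z k m)) (v (w j)) (v (w k)) W Pi
      (v (hh a (3 * e + 1) e i u0 u1)) _ _ hzpos (hpos _ _ h2) (hpos _ _ h3) (hpos _ _ h4) (hpos _ _ h5)
      (hzz _ _ h2) (hzz _ _ h3) (hzz _ _ h4) (hzz _ _ h5) (v.nonneg _) (v.nonneg _) ?_ ?_ hPi0 hPi'
      (v.nonneg _) ?_ ?_ hst
    · have := hW j l m h2 h3 h6
      change v (z l m) = zz at hlm
      rwa [hlm] at this
    · have := hW k l m h4 h5 h6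
      change v (z l m) = zz at hlm
      rwa [hlm] at this
    · have := hS3 j k l m h1 h2 h3 h4 h5 h6
      rwa [hjk] at this
    · have := hS3 k j l m h1.symm h4 h5 h2 h3 h6
      rwa [hsym k j, hjk] at this
  · -- cusp case
    change v (z j q) = zz at hjq
    change v (z l q) = zz at hlq
    change v (z m q) = zz at hmq
    change v (z j l) ≤ v (z l m) at hjl
    change v (z j m) ≤ v (z l m) at hjm
    have hst := star rfl he v hv a i hi u0 u1 j q
    rw [ha q j, v.map_pow, ← hsym j q, hjq, ← pow_mul, hvD j l m q h1 h2 h3 h4 h5 h6,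
      hvD q j l m h3.symm h5.symm h6.symm h1 h2 h4, hsym q j, hsym q l, hsym q m, hjq, hlq, hmq] at hst
    rw [hZ j q l m h3 h1 h2 h5.symm h6.symm h4, hsym q l, hsym q m, hjq, hlq, hmq]
    have hxy : ∀ x y, x ≠ y → x ≠ q → y ≠ q → v (z x y) ≤ v (z l m) := by
      intro x y hxy hx hy
      rcases three_of_four j l m q x h1 h2 h3 h4 h5 h6 hx with rfl | rfl | rfl <;>
        rcases three_of_four _ _ _ q y h1 h2 h3 h4 h5 h6 hy with rfl | rfl | rfl
      · exact absurd rfl hxy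
      · exact hjl
      · exact hjm
      · rw [hsym]; exact hjl
      · exact absurd rfl hxy
      · exact le_rfl
      · rw [hsym]; exact hjm
      · rw [hsym]
      · exact absurd rfl hxy
    have hPi' : Pi ≤ zz ^ 2 * v (z l m) := by
      obtain ⟨a', b', c', d', g1, g2, g3, g4, g5, g6, hP⟩ := hPi
      refine hP.trans ?_
      have e1 := hzz a' b' g1
      have e2 := hzz c' d' g6
      have e3 := (hpos a' b' g1).le
      have e4 := (hpos c' d' g6).le
      have e5 := (hpos l m h4).le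
      by_cases hc : c' ≠ q ∧ d' ≠ q
      · have := hxy c' d' g6 hc.1 hc.2
        gcongr
      · have hab : a' ≠ q ∧ b' ≠ q := by
          rw [not_and_or, not_ne_iff, not_ne_iff] at hc
          rcases hc with rfl | rfl
          · exact ⟨g2, g4⟩
          · exact ⟨g3, g5⟩
        have e6 := hxy a' b' g1 hab.1 hab.2
        calc v (z a' b') ^ 2 * v (z c' d') = v (z a' b') * v (z a' b') * v (z c' d') := by ring
          _ ≤ zz * v (z l m) * zz := by gcongr
          _ = zz ^ 2 * v (z l m) := by ring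
    have := numB e i zz (v (z l m)) (v (z j l)) (v (z j m)) (v (w j)) (v (w q)) W Pi
      (v (hh a (3 * e + 1) e i u0 u1))
      (v (((X + C (a j)) ^ i * ∏ x ∈ Finset.univ.erase j, (X + C (a j - a x)) ^ (2 * e)).coeff e))
      (v (((X + C (a q)) ^ i * ∏ x ∈ Finset.univ.erase q, (X + C (a q - a x)) ^ (2 * e)).coeff e))
      hzpos (hpos _ _ h4) (hzz _ _ h4) (hpos _ _ h1) (hpos _ _ h2)
      hjl hjm (v.nonneg _) (v.nonneg _) ?_ (hW q l m h5.symm h6.symm h4) hPi0 hPi'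
      (v.nonneg _) ?_ ?_ hst
    · refine le_trans (le_of_eq ?_) (this.trans (le_of_eq ?_)) <;> ring
    · have := hW j l q h1 h3 h5
      rwa [hlq] at this
    · rw [prod_erase4 _ j l m q h1 h2 h3 h4 h5 h6]
      have := bound2 v hv e i (a j) (a j - a l) (a j - a m) (a j - a q) (v (z l m) ^ 3) (zz ^ 3)
        (by have := hpos _ _ h4; positivity) (pow_le_pow_left₀ (v.nonneg _) (hzz _ _ h4) 3) (hazz j)
        (by rw [ha, v.map_pow]; exact pow_le_pow_left₀ (v.nonneg _) hjl 3)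
        (by rw [ha, v.map_pow]; exact pow_le_pow_left₀ (v.nonneg _) hjm 3)
        (by rw [ha, v.map_pow]; exact pow_le_pow_left₀ (v.nonneg _) (hzz _ _ h3) 3)
      refine this.trans (le_of_eq ?_)
      rw [ha, ha, v.map_pow, v.map_pow]
      ring
    · have := hS3 q j l m h3.symm h5.symm h6.symm h1 h2 h4
      rwa [hsym q j, hsym q l, hsym q m, hjq, hlq, hmq] at this

end Nef
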