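import Mathlib

set_option autoImplicit false

open Polynomial

namespace Nef

variable {K : Type*} [Field K]

/-- the three coefficients of `X^n F^m` -/
noncomputable def spaV (p m : ℕ) (F : K[X]) (n : ℕ) : Fin 3 → K :=
  fun j => (X ^ n * F ^ m).coeff (p * (j : ℕ) + (p - 1))

theorem spa_expand (F : K[X]) (hF : F.Monic) (hdeg : F.natDegree = 4) (c : K) (k : ℕ) :
    C (k : K) * X ^ (k - 1) * F + C c * X ^ k * derivative F =
      C ((k : K) + 4 * c) * X ^ (k + 3) + C (((k : K) + 3 * c) * F.coeff 3) * X ^ (k + 2) +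
      C (((k : K) + 2 * c) * F.coeff 2) * X ^ (k + 1) + C (((k : K) + c) * F.coeff 1) * X ^ k +
      C ((k : K) * F.coeff 0) * X ^ (k - 1) := by
  have h1 : F = X ^ 4 + C (F.coeff 3) * X ^ 3 + C (F.coeff 2) * X ^ 2 + C (F.coeff 1) * X +
      C (F.coeff 0) := by
    have h2 := hF.as_sum
    rw [hdeg] at h2
    simp only [Finset.sum_range_succ, Finset.sum_range_zero] at h2
    conv_lhs => rw [h2]
    ring
  have hd : derivative F = C 4 * X ^ 3 + C (3 * F.coeff 3) * X ^ 2 + C (2 * F.coeff 2) * X +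
      C (F.coeff 1) := by
    conv_lhs => rw [h1]
    simp only [derivative_add, derivative_mul, derivative_X_pow, derivative_C, derivative_X,
      zero_mul, zero_add, mul_one, add_zero, C_mul]
    norm_num
    ring
  rw [hd]
  generalize F.coeff 3 = a3 at *
  generalize F.coeff 2 = a2 at *
  generalize F.coeff 1 = a1 at *
  generalize F.coeff 0 = a0 at *
  rw [h1]
  rcases k with _ | k
  · simp only [Nat.cast_zero, C_0, zero_mul, zero_add, pow_zero, mul_one, C_mul]
    have h4 : (C 4 : K[X]) = 4 := rfl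
    have h3 : (C 3 : K[X]) = 3 := rfl
    have h2 : (C 2 : K[X]) = 2 := rfl
    rw [h4, h3, h2]
    ring
  · simp only [Nat.add_sub_cancel, C_mul, C_add]
    have h4 : (C 4 : K[X]) = 4 := rfl
    have h3 : (C 3 : K[X]) = 3 := rfl
    have h2 : (C 2 : K[X]) = 2 := rfl
    rw [h4, h3, h2]
    ring

theorem spa_rec {p m : ℕ} (F : K[X]) (hF : F.Monic) (hdeg : F.natDegree = 4) (c : K) (k : ℕ)
    (h : ∀ j : ℕ, ((C (k : K) * X ^ (k - 1) * F + C c * X ^ k * derivative F) * F ^ m).coeff
      (p * j + (p - 1)) = 0) :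
    ((k : K) + 4 * c) • spaV p m F (k + 3) + (((k : K) + 3 * c) * F.coeff 3) • spaV p m F (k + 2) +
      (((k : K) + 2 * c) * F.coeff 2) • spaV p m F (k + 1) +
      (((k : K) + c) * F.coeff 1) • spaV p m F k +
      ((k : K) * F.coeff 0) • spaV p m F (k - 1) = 0 := by
  funext j
  have h1 := h (j : ℕ)
  rw [spa_expand F hF hdeg c k] at h1
  simp only [add_mul, mul_assoc, coeff_add, coeff_C_mul] at h1
  simp only [Pi.add_apply, Pi.smul_apply, smul_eq_mul, Pi.zero_apply, spaV]
  linear_combination h1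

theorem spa_span {p e : ℕ} [Fact p.Prime] [CharP K p] (hp : p = 3 * e + 1)
    (he : 2 ≤ e) (F : K[X]) (hF : F.Monic) (hdeg : F.natDegree = 4)
    (hrec : ∀ k j : ℕ, (((C (k : K) * X ^ (k - 1) * F +
      C (((2 * e : ℕ) : K) + 1) * X ^ k * derivative F) * F ^ (2 * e)).coeff
      (p * j + (p - 1))) = 0) (M : Submodule K (Fin 3 → K))
    (h0 : spaV p (2 * e) F 0 ∈ M) (h1 : spaV p (2 * e) F 1 ∈ M) (h2 : spaV p (2 * e) F 2 ∈ M)
    (hQ : spaV p (2 * e) F (e + 2) ∈ M) :
    ∀ n : ℕ, n ≤ p + 2 → spaV p (2 * e) F n ∈ M := by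
  intro n
  induction n using Nat.strong_induction_on with
  | _ n ih =>
    intro hn
    by_cases hlt : n < 3
    · interval_cases n
      · exact h0
      · exact h1
      · exact h2
    by_cases hne : n = e + 2
    · rw [hne]; exact hQ
    obtain ⟨k, rfl⟩ : ∃ k, n = k + 3 := ⟨n - 3, by omega⟩
    have hr := spa_rec F hF hdeg (((2 * e : ℕ) : K) + 1) k (hrec k)
    have hfac : ((k : K) + 4 * (((2 * e : ℕ) : K) + 1)) ≠ 0 := by
      have h3 : ((k : K) + 4 * (((2 * e : ℕ) : K) + 1)) = ((k + 4 * (2 * e + 1) : ℕ) : K) := by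
        push_cast; ring
      rw [h3, Ne, CharP.cast_eq_zero_iff K p]
      rintro ⟨q, hq⟩
      rw [hp] at hq hn
      rcases q with _ | _ | _ | _ | q
      · omega
      · omega
      · omega
      · omega
      · have : (3 * e + 1) * (q + 1 + 1 + 1 + 1) = (3 * e + 1) * q + 4 * (3 * e + 1) := by ring
        rw [this] at hq
        have h4 : 0 ≤ (3 * e + 1) * q := Nat.zero_le _
        omega
    have hsolve : spaV p (2 * e) F (k + 3) = -(((k : K) + 4 * (((2 * e : ℕ) : K) + 1))⁻¹ •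
        ((((k : K) + 3 * (((2 * e : ℕ) : K) + 1)) * F.coeff 3) • spaV p (2 * e) F (k + 2) +
      (((k : K) + 2 * (((2 * e : ℕ) : K) + 1)) * F.coeff 2) • spaV p (2 * e) F (k + 1) +
      (((k : K) + (((2 * e : ℕ) : K) + 1)) * F.coeff 1) • spaV p (2 * e) F k +
      ((k : K) * F.coeff 0) • spaV p (2 * e) F (k - 1))) := by
      have h5 : ((k : K) + 4 * (((2 * e : ℕ) : K) + 1)) • spaV p (2 * e) F (k + 3) =
        -((((k : K) + 3 * (((2 * e : ℕ) : K) + 1)) * F.coeff 3) • spaV p (2 * e) F (k + 2) +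
      (((k : K) + 2 * (((2 * e : ℕ) : K) + 1)) * F.coeff 2) • spaV p (2 * e) F (k + 1) +
      (((k : K) + (((2 * e : ℕ) : K) + 1)) * F.coeff 1) • spaV p (2 * e) F k +
      ((k : K) * F.coeff 0) • spaV p (2 * e) F (k - 1)) := by
        rw [eq_neg_iff_add_eq_zero, ← hr]
        abel
      rw [← smul_neg, ← h5, smul_smul, inv_mul_cancel₀ hfac, one_smul]
    rw [hsolve]
    refine M.neg_mem (M.smul_mem _ (M.add_mem (M.add_mem (M.add_mem ?_ ?_) ?_) ?_))
    · exact M.smul_mem _ (ih (k + 2) (by omega) (by omega))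
    · exact M.smul_mem _ (ih (k + 1) (by omega) (by omega))
    · exact M.smul_mem _ (ih k (by omega) (by omega))
    · exact M.smul_mem _ (ih (k - 1) (by omega) (by omega))

theorem span_argument [IsAlgClosed K] {p e : ℕ} [Fact p.Prime] [CharP K p] (hp : p = 3 * e + 1)
    (he : 2 ≤ e) (F : K[X]) (hF : F.Monic) (hdeg : F.natDegree = 4)
    (hroot : ∀ β : K, ∃ n : ℕ, n ≤ p - 1 ∧
      ∑ j ∈ Finset.range ((F ^ (2 * e)).natDegree + p),
        (X ^ n * F ^ (2 * e)).coeff (p * j + (p - 1)) * β ^ j ≠ 0)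
    (hrec : ∀ k j : ℕ, (((C (k : K) * X ^ (k - 1) * F +
      C (((2 * e : ℕ) : K) + 1) * X ^ k * derivative F) * F ^ (2 * e)).coeff
      (p * j + (p - 1))) = 0)
    (s0 s1 : K) (hs : ¬ (s0 = 0 ∧ s1 = 0)) :
    ∃ i : ℕ, i < 3 ∧ s0 * (X ^ i * F ^ (2 * e)).coeff (2 * p - 1) -
      s1 * (X ^ i * F ^ (2 * e)).coeff (p - 1) ≠ 0 := by
  classical
  by_contra hcon
  push Not at hcon
  set V := spaV p (2 * e) F with hV
  have hΦm : (F ^ (2 * e)).Monic := hF.pow _
  have hΦd : (F ^ (2 * e)).natDegree = 8 * e := by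
    rw [hF.natDegree_pow, hdeg]; ring
  have hXm : ∀ n, (X ^ n * F ^ (2 * e)).Monic := fun n => (monic_X_pow n).mul hΦm
  have hXd : ∀ n, (X ^ n * F ^ (2 * e)).natDegree = n + 8 * e := by
    intro n
    rw [(monic_X_pow n).natDegree_mul hΦm, natDegree_X_pow, hΦd]
  have hvan : ∀ n d : ℕ, n + 8 * e < d → (X ^ n * F ^ (2 * e)).coeff d = 0 := by
    intro n d h
    exact coeff_eq_zero_of_natDegree_lt (by rw [hXd]; exact h)
  have hQ2 : V (e + 2) 2 = 1 := by
    have h1 := (hXm (e + 2)).coeff_natDegree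
    rw [hXd] at h1
    show (X ^ (e + 2) * F ^ (2 * e)).coeff (p * ((2 : Fin 3) : ℕ) + (p - 1)) = 1
    have h2 : p * ((2 : Fin 3) : ℕ) + (p - 1) = e + 2 + 8 * e := by
      show p * 2 + (p - 1) = e + 2 + 8 * e
      omega
    rw [h2]; exact h1
  have hV2 : ∀ i, i < 3 → V i 2 = 0 := by
    intro i hi
    show (X ^ i * F ^ (2 * e)).coeff (p * ((2 : Fin 3) : ℕ) + (p - 1)) = 0
    apply hvan
    show i + 8 * e < p * 2 + (p - 1)
    omega
  have hV0 : ∀ i, V i 0 = (X ^ i * F ^ (2 * e)).coeff (p - 1) := by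
    intro i
    show (X ^ i * F ^ (2 * e)).coeff (p * 0 + (p - 1)) = _
    rw [Nat.mul_zero, Nat.zero_add]
  have hV1 : ∀ i, V i 1 = (X ^ i * F ^ (2 * e)).coeff (2 * p - 1) := by
    intro i
    show (X ^ i * F ^ (2 * e)).coeff (p * 1 + (p - 1)) = _
    congr 1
    omega
  have hpar : ∀ i, i < 3 → ∃ c : K, V i = c • ![s0, s1, 0] := by
    intro i hi
    have h1 := hcon i hi
    rw [← hV0, ← hV1] at h1
    by_cases hs0 : s0 = 0
    · have hs1 : s1 ≠ 0 := fun h => hs ⟨hs0, h⟩
      rw [hs0, zero_mul, zero_sub, neg_eq_zero] at h1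
      have h2 : V i 0 = 0 := by
        rcases mul_eq_zero.mp h1 with h | h
        · exact absurd h hs1
        · exact h
      refine ⟨V i 1 / s1, ?_⟩
      funext j
      fin_cases j
      · show V i 0 = V i 1 / s1 * s0
        rw [h2, hs0, mul_zero]
      · show V i 1 = V i 1 / s1 * s1
        rw [div_mul_cancel₀ _ hs1]
      · show V i 2 = V i 1 / s1 * 0
        rw [hV2 i hi, mul_zero]
    · refine ⟨V i 0 / s0, ?_⟩
      funext j
      fin_cases j
      · show V i 0 = V i 0 / s0 * s0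
        rw [div_mul_cancel₀ _ hs0]
      · show V i 1 = V i 0 / s0 * s1
        field_simp
        linear_combination h1
      · show V i 2 = V i 0 / s0 * 0
        rw [hV2 i hi, mul_zero]
  have hsum : ∀ n, n ≤ p - 1 → ∀ β : K, ∑ j ∈ Finset.range ((F ^ (2 * e)).natDegree + p),
        (X ^ n * F ^ (2 * e)).coeff (p * j + (p - 1)) * β ^ j =
        V n 0 + V n 1 * β + V n 2 * β ^ 2 := by
    intro n hn β
    have h1 : ∑ j ∈ Finset.range 3, (X ^ n * F ^ (2 * e)).coeff (p * j + (p - 1)) * β ^ j =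
        ∑ j ∈ Finset.range ((F ^ (2 * e)).natDegree + p),
        (X ^ n * F ^ (2 * e)).coeff (p * j + (p - 1)) * β ^ j := by
      apply Finset.sum_subset
      · intro j hj
        rw [Finset.mem_range] at hj ⊢
        omega
      · intro j _ hj
        rw [Finset.mem_range, not_lt] at hj
        rw [hvan n _ ?_, zero_mul]
        have h2 : p * 3 ≤ p * j := Nat.mul_le_mul_left p hj
        omega
    rw [← h1, Finset.sum_range_succ, Finset.sum_range_succ, Finset.sum_range_succ,
      Finset.sum_range_zero, zero_add, pow_zero, mul_one, pow_one]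
    rfl
  -- functional
  have hfin : ∀ (β : K) (M : Submodule K (Fin 3 → K)),
      (∀ v ∈ M, v 0 + v 1 * β + v 2 * β ^ 2 = 0) → V 0 ∈ M → V 1 ∈ M → V 2 ∈ M →
      V (e + 2) ∈ M → False := by
    intro β M hM h0 h1 h2 h3
    obtain ⟨n, hn, hne⟩ := hroot β
    apply hne
    rw [hsum n hn β]
    exact hM _ (spa_span hp he F hF hdeg hrec M h0 h1 h2 h3 n (by omega))
  by_cases hall : ∀ i, i < 3 → V i = 0
  · -- case 2
    obtain ⟨β, hβ⟩ := IsAlgClosed.exists_root (X ^ 2 + C (V (e + 2) 1) * X + C (V (e + 2) 0) : K[X])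
      (by
        have : (X ^ 2 + C (V (e + 2) 1) * X + C (V (e + 2) 0) : K[X]).degree = 2 := by
          compute_degree!
        rw [this]; decide)
    refine hfin β (Submodule.span K {V (e + 2)}) ?_ ?_ ?_ ?_ (Submodule.mem_span_singleton_self _)
    · intro v hv
      obtain ⟨c, rfl⟩ := Submodule.mem_span_singleton.mp hv
      simp only [Pi.smul_apply, smul_eq_mul]
      have h1 : β ^ 2 + V (e + 2) 1 * β + V (e + 2) 0 = 0 := by
        have := hβ
        simpa [IsRoot.def] using this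
      rw [hQ2]
      linear_combination c * h1
    · rw [hall 0 (by omega)]; exact Submodule.zero_mem _
    · rw [hall 1 (by omega)]; exact Submodule.zero_mem _
    · rw [hall 2 (by omega)]; exact Submodule.zero_mem _
  · -- case 1
    push Not at hall
    obtain ⟨i, hi, hVi⟩ := hall
    obtain ⟨c, hc⟩ := hpar i hi
    have hc0 : c ≠ 0 := by
      intro h
      rw [h, zero_smul] at hc
      exact hVi hc
    set M : Submodule K (Fin 3 → K) := Submodule.span K {![s0, s1, 0], V (e + 2)} with hM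
    have hPM : (![s0, s1, 0] : Fin 3 → K) ∈ M := Submodule.subset_span (by simp)
    have hQM : V (e + 2) ∈ M := Submodule.subset_span (by simp)
    have hiM : ∀ i, i < 3 → V i ∈ M := by
      intro i hi
      obtain ⟨c, hc⟩ := hpar i hi
      rw [hc]
      exact M.smul_mem _ hPM
    have hshift := spa_span hp he F hF hdeg hrec M (hiM 0 (by omega)) (hiM 1 (by omega))
      (hiM 2 (by omega)) hQM (p + i) (by omega)
    have hsh : ∀ d, (X ^ (p + i) * F ^ (2 * e)).coeff d =
        if p ≤ d then (X ^ i * F ^ (2 * e)).coeff (d - p) else 0 := by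
      intro d
      rw [pow_add, mul_assoc, coeff_X_pow_mul']
    have s_0 : spaV p (2 * e) F (p + i) 0 = 0 := by
      show (X ^ (p + i) * F ^ (2 * e)).coeff (p * 0 + (p - 1)) = 0
      rw [hsh, if_neg (by omega)]
    have s_1 : spaV p (2 * e) F (p + i) 1 = c * s0 := by
      show (X ^ (p + i) * F ^ (2 * e)).coeff (p * 1 + (p - 1)) = _
      rw [hsh, if_pos (by omega)]
      have h1 : p * 1 + (p - 1) - p = p - 1 := by omega
      rw [h1, ← hV0, hc]
      rfl
    have s_2 : spaV p (2 * e) F (p + i) 2 = c * s1 := by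
      show (X ^ (p + i) * F ^ (2 * e)).coeff (p * 2 + (p - 1)) = _
      rw [hsh, if_pos (by omega)]
      have h1 : p * 2 + (p - 1) - p = 2 * p - 1 := by omega
      rw [h1, ← hV1, hc]
      rfl
    rw [hM] at hshift
    obtain ⟨a, b, hab⟩ := Submodule.mem_span_pair.mp hshift
    have e0 := congrFun hab 0
    have e1 := congrFun hab 1
    have e2 := congrFun hab 2
    rw [s_0] at e0
    rw [s_1] at e1
    rw [s_2] at e2
    simp only [Pi.add_apply, Pi.smul_apply, smul_eq_mul] at e0 e1 e2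
    rw [hQ2] at e2
    change a * s0 + b * V (e + 2) 0 = 0 at e0
    change a * s1 + b * V (e + 2) 1 = c * s0 at e1
    change a * 0 + b * 1 = c * s1 at e2
    have hb : b = c * s1 := by linear_combination e2
    by_cases hs1 : s1 = 0
    · have hs0 : s0 ≠ 0 := fun h => hs ⟨h, hs1⟩
      rw [hb, hs1] at e1
      have : c * s0 = 0 := by linear_combination -e1
      rcases mul_eq_zero.mp this with h | h
      · exact hc0 h
      · exact hs0 h
    · refine hfin (-s0 / s1) M ?_ (hiM 0 (by omega)) (hiM 1 (by omega)) (hiM 2 (by omega)) hQM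
      have hb0 : b ≠ 0 := by rw [hb]; exact mul_ne_zero hc0 hs1
      set β := -s0 / s1 with hβ
      have hβ1 : s0 + s1 * β = 0 := by rw [hβ]; field_simp; ring
      have hLQ : V (e + 2) 0 + V (e + 2) 1 * β + 1 * β ^ 2 = 0 := by
        have h1 : b * (V (e + 2) 0 + V (e + 2) 1 * β + 1 * β ^ 2) = 0 := by
          have h2 : s0 = -(s1 * β) := by linear_combination hβ1
          linear_combination e0 + β * e1 + β ^ 2 * e2 + (c * β - a) * hβ1
        rcases mul_eq_zero.mp h1 with h | h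
        · exact absurd h hb0
        · exact h
      intro v hv
      rw [hM] at hv
      obtain ⟨a', b', rfl⟩ := Submodule.mem_span_pair.mp hv
      simp only [Pi.add_apply, Pi.smul_apply, smul_eq_mul]
      rw [hQ2]
      change (a' * s0 + b' * V (e + 2) 0) + (a' * s1 + b' * V (e + 2) 1) * β +
        (a' * 0 + b' * 1) * β ^ 2 = 0
      linear_combination a' * hβ1 + b' * hLQ

end Nef
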