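import Pool.Agent.Helper693.Nef.LocC
import Pool.Agent.Helper693.Nef.SpanArg

set_option autoImplicit false

open Polynomial

namespace Nef

variable {K : Type*} [Field K]

theorem Fp_map {L : Type*} [Field L] (ι : K →+* L) (a : Fin 4 → K) :
    (Fp a).map ι = Fp (fun i => ι (a i)) := by
  unfold Fp
  rw [Polynomial.map_prod]
  simp

theorem rootMult_Fp (a : Fin 4 → K) (ha : Function.Injective a) (n : ℕ) (x : K) :
    (Fp a ^ n).rootMultiplicity x ≤ n := by
  classical
  rw [← count_roots, roots_pow, Multiset.count_nsmul]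
  have h1 : (Fp a).roots = Multiset.map a Finset.univ.val := by
    have := roots_multiset_prod_X_sub_C (Multiset.map a Finset.univ.val)
    rw [Multiset.map_map] at this
    exact this
  have h2 : (Fp a).roots.Nodup := by
    rw [h1]
    exact Multiset.Nodup.map ha Finset.univ.nodup
  have h3 := Multiset.nodup_iff_count_le_one.1 h2 x
  nlinarith

theorem exists_hh_ne_zero_closed [IsAlgClosed K] {p e : ℕ} [Fact p.Prime] [CharP K p]
    (hp : p = 3 * e + 1) (he : 2 ≤ e) (a : Fin 4 → K) (ha : Function.Injective a) (u0 u1 : K)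
    (hu : ¬ (u0 = 0 ∧ u1 = 0)) : ∃ i < 3, hh a p e i u0 u1 ≠ 0 := by
  have h := span_argument (K := K) (p := p) (e := e) hp he (Fp a) (Fp_monic a) (Fp_natDegree a)
    (fun β => no_common_root (p := p) (Fp a ^ (2 * e)) (pow_ne_zero _ (Fp_monic a).ne_zero)
      (fun x => (rootMult_Fp a ha (2 * e) x).trans (by omega)) β)
    (fun k j => recursion (p := p) (Fp a) (2 * e) k j) (u0 ^ p) (u1 ^ p)
    (by
      rintro ⟨h0, h1⟩
      exact hu ⟨pow_eq_zero_iff (by omega) |>.1 h0, pow_eq_zero_iff (by omega) |>.1 h1⟩)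
  obtain ⟨i, hi, h⟩ := h
  exact ⟨i, hi, h⟩

theorem exists_hh_ne_zero {p e : ℕ} [Fact p.Prime] [CharP K p]
    (hp : p = 3 * e + 1) (he : 2 ≤ e) (a : Fin 4 → K) (ha : Function.Injective a) (u0 u1 : K)
    (hu : ¬ (u0 = 0 ∧ u1 = 0)) : ∃ i < 3, hh a p e i u0 u1 ≠ 0 := by
  let ι := algebraMap K (AlgebraicClosure K)
  haveI : CharP (AlgebraicClosure K) p := charP_of_injective_algebraMap ι.injective p
  obtain ⟨i, hi, h⟩ := exists_hh_ne_zero_closed (K := AlgebraicClosure K) hp he (fun x => ι (a x))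
    (ι.injective.comp ha) (ι u0) (ι u1) (by
      rintro ⟨h0, h1⟩
      exact hu ⟨(map_eq_zero ι).1 h0, (map_eq_zero ι).1 h1⟩)
  refine ⟨i, hi, fun h0 => h ?_⟩
  have h1 : hh (fun x => ι (a x)) p e i (ι u0) (ι u1) = ι (hh a p e i u0 u1) := by
    unfold hh
    rw [map_sub, map_mul, map_mul, map_pow, map_pow, ← coeff_map, ← coeff_map, Polynomial.map_mul,
      Polynomial.map_pow, Polynomial.map_pow, Fp_map, Polynomial.map_X]
  rw [h1, h0, map_zero]

end Nef
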