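import Pool.Agent.Helper693.Nef.PF
import Pool.Agent.Helper693.Nef.NonVan

set_option autoImplicit false

open Polynomial

namespace FF.Place

variable {k K : Type*} [Field k] [Field K] [Algebra k K] (P : FF.Place k K)

open Classical in
/-- The absolute value attached to a place. -/
noncomputable def av : AbsoluteValue K ℝ where
  toFun x := if x = 0 then 0 else (2 : ℝ) ^ (- P.ord x)
  map_mul' x y := by
    by_cases hx : x = 0
    · simp [hx]
    by_cases hy : y = 0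
    · simp [hy]
    rw [if_neg (mul_ne_zero hx hy), if_neg hx, if_neg hy, P.ord_mul hx hy, neg_add,
      zpow_add₀ (by norm_num)]
  nonneg' x := by
    show 0 ≤ (if x = 0 then (0 : ℝ) else (2 : ℝ) ^ (- P.ord x))
    split_ifs <;> positivity
  eq_zero' x := by
    show (if x = 0 then (0 : ℝ) else (2 : ℝ) ^ (- P.ord x)) = 0 ↔ x = 0
    split_ifs with h
    · simp [h]
    · simp only [h, iff_false]
      positivity
  add_le' x y := by
    show (if x + y = 0 then (0 : ℝ) else (2 : ℝ) ^ (- P.ord (x + y))) ≤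
      (if x = 0 then (0 : ℝ) else (2 : ℝ) ^ (- P.ord x)) + (if y = 0 then (0 : ℝ) else (2 : ℝ) ^ (- P.ord y))
    by_cases hx : x = 0
    · simp [hx]
    by_cases hy : y = 0
    · simp [hy]
    by_cases hxy : x + y = 0
    · rw [if_pos hxy]
      split_ifs <;> positivity
    rw [if_neg hx, if_neg hy, if_neg hxy]
    have h := P.ord_add hx hy hxy
    have p1 : (0 : ℝ) < 2 ^ (- P.ord x) := by positivity
    have p2 : (0 : ℝ) < 2 ^ (- P.ord y) := by positivity
    rcases min_le_iff.1 h with h | h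
    · have : (2 : ℝ) ^ (- P.ord (x + y)) ≤ 2 ^ (- P.ord x) :=
        zpow_le_zpow_right₀ (by norm_num) (by omega)
      linarith
    · have : (2 : ℝ) ^ (- P.ord (x + y)) ≤ 2 ^ (- P.ord y) :=
        zpow_le_zpow_right₀ (by norm_num) (by omega)
      linarith

open Classical in
theorem av_ne {x : K} (hx : x ≠ 0) : P.av x = (2 : ℝ) ^ (- P.ord x) := by
  show (if x = 0 then (0 : ℝ) else (2 : ℝ) ^ (- P.ord x)) = _
  rw [if_neg hx]

theorem av_nonarch : IsNonarchimedean P.av := by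
  intro x y
  by_cases hx : x = 0
  · rw [hx, zero_add]; exact le_max_right _ _
  by_cases hy : y = 0
  · rw [hy, add_zero]; exact le_max_left _ _
  by_cases hxy : x + y = 0
  · rw [hxy, map_zero]; exact le_max_of_le_left (P.av.nonneg _)
  rw [P.av_ne hx, P.av_ne hy, P.av_ne hxy]
  rcases min_le_iff.1 (P.ord_add hx hy hxy) with h | h
  · exact le_max_of_le_left (zpow_le_zpow_right₀ (by norm_num) (by omega))
  · exact le_max_of_le_right (zpow_le_zpow_right₀ (by norm_num) (by omega))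

end FF.Place

namespace Nef

variable {K : Type*} [Field K]

/-- The local inequality in terms of orders. -/
theorem local_ord {k : Type*} [Field k] [Algebra k K] (P : FF.Place k K)
    {p e : ℕ} [Fact p.Prime] [CharP K p] (hp : p = 3 * e + 1) (he : 1 ≤ e)
    (z : Fin 4 → Fin 4 → K)
    (hanti : ∀ i j, z j i = - z i j) (hz : ∀ i j, i ≠ j → z i j ≠ 0)
    (a : Fin 4 → K) (ha : ∀ i j, a i - a j = (z i j) ^ 3) (ha3 : a 3 = 0)
    (u0 u1 : K) (i : ℕ) (hi : i < 3) (hh0 : hh a p e i u0 u1 ≠ 0)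
    (mz mt mo : ℤ)
    (hz1 : ∀ i j, i ≠ j → mz ≤ P.ord (z i j)) (hz2 : ∃ i j, i ≠ j ∧ mz = P.ord (z i j))
    (ht : ∃ i j k l : Fin 4, i ≠ j ∧ i ≠ k ∧ i ≠ l ∧ j ≠ k ∧ j ≠ l ∧ k ≠ l ∧
      P.ord (z i j ^ 2 * z k l) ≤ mt)
    (ho : ∀ i j k l : Fin 4, i ≠ j → i ≠ k → i ≠ l → j ≠ k → j ≠ l → k ≠ l → u0 + u1 * a i ≠ 0 →
      mo ≤ P.ord ((u0 + u1 * a i) * (z j k ^ 2 * z k l * z l j))) :
    p * mo + (p + 7 + 3 * i) * mz ≤ P.ord (hh a p e i u0 u1) + p * mt +
      2 * P.ord (z 0 1 * z 0 2 * z 0 3 * z 1 2 * z 1 3 * z 2 3) := by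
  set Z := z 0 1 * z 0 2 * z 0 3 * z 1 2 * z 1 3 * z 2 3 with hZdef
  have hZ0 : Z ≠ 0 := by
    refine mul_ne_zero (mul_ne_zero (mul_ne_zero (mul_ne_zero (mul_ne_zero ?_ ?_) ?_) ?_) ?_) ?_ <;>
      exact hz _ _ (by decide)
  have hvZ : 0 < P.av Z := P.av.pos hZ0
  have hsym : ∀ i j, P.av (z i j) = P.av (z j i) := fun i j => by rw [hanti j i, P.av.map_neg]
  have hpr : ∀ i, ∏ x ∈ Finset.univ.erase i, z i x ≠ 0 := by
    intro i
    rw [Finset.prod_ne_zero_iff]
    intro x hx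
    exact hz i x (Finset.ne_of_mem_erase hx).symm
  have hle : ∀ (x : K) (m : ℤ), x ≠ 0 → m ≤ P.ord x → P.av x ≤ (2 : ℝ) ^ (-m) := by
    intro x m hx hm
    rw [P.av_ne hx]
    exact zpow_le_zpow_right₀ (by norm_num) (by omega)
  have hfour : ∀ i j k : Fin 4, i ≠ j → i ≠ k → j ≠ k → ∃ l : Fin 4, i ≠ l ∧ j ≠ l ∧ k ≠ l := by
    decide
  have h := local_ineq hp he P.av P.av_nonarch z hanti hz a ha ha3 u0 u1
    (fun i => (u0 + u1 * a i) / ∏ x ∈ Finset.univ.erase i, z i x)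
    (fun i => div_mul_cancel₀ _ (hpr i)) i hi ((2 : ℝ) ^ (-mz)) ((2 : ℝ) ^ (-mo) / P.av Z)
    ((2 : ℝ) ^ (-mt))
    (fun i j hij => hle _ _ (hz i j hij) (hz1 i j hij))
    (by
      obtain ⟨i, j, hij, h⟩ := hz2
      exact ⟨i, j, hij, by rw [P.av_ne (hz i j hij), h]⟩)
    (by
      intro i j k hij hik hjk
      obtain ⟨l, hil, hjl, hkl⟩ := hfour i j k hij hik hjk
      rw [le_div_iff₀ hvZ]
      have h6 := six_prod (fun i j => P.av (z i j)) hsym i j k l hij hik hil hjk hjl hkl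
      have hZv : P.av Z = P.av (z i j) * P.av (z k l) * P.av (z i k) * P.av (z i l) *
          P.av (z j k) * P.av (z j l) := by
        rw [← h6, hZdef]
        simp only [P.av.map_mul]
      by_cases hu : u0 + u1 * a i = 0
      · rw [hu, zero_div, map_zero, zero_mul, zero_mul]; positivity
      have h7 := hle _ _ (mul_ne_zero hu (mul_ne_zero (mul_ne_zero (pow_ne_zero 2 (hz j k hjk))
        (hz k l hkl)) (hz l j hjl.symm))) (ho i j k l hij hik hil hjk hjl hkl hu)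
      refine le_trans (le_of_eq ?_) h7
      rw [map_div₀, prod_erase4 _ i j k l hij hik hil hjk hjl hkl, hZv]
      simp only [P.av.map_mul, P.av.map_pow]
      rw [hsym l j]
      have e1 := (P.av.pos (hz i j hij)).ne'
      have e2 := (P.av.pos (hz i k hik)).ne'
      have e3 := (P.av.pos (hz i l hil)).ne'
      field_simp)
    (by positivity)
    (by
      obtain ⟨i, j, k, l, h1, h2, h3, h4, h5, h6, h7⟩ := ht
      refine ⟨i, j, k, l, h1, h2, h3, h4, h5, h6, ?_⟩
      rw [← P.av.map_pow, ← P.av.map_mul, P.av_ne (mul_ne_zero (pow_ne_zero 2 (hz i j h1)) (hz k l h6))]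
      exact zpow_le_zpow_right₀ (by norm_num) (by omega))
  rw [← hZdef, ← mul_pow, mul_div_cancel₀ _ hvZ.ne', P.av_ne hh0, P.av_ne hZ0] at h
  have h2 : (2 : ℝ) ^ (-(P.ord (hh a p e i u0 u1) + p * mt + 2 * P.ord Z)) ≤
      (2 : ℝ) ^ (-(p * mo + (p + 7 + 3 * i) * mz)) := by
    refine le_trans (le_of_eq ?_) (h.trans (le_of_eq ?_))
    · rw [← zpow_natCast, ← zpow_natCast, ← zpow_mul, ← zpow_mul, ← zpow_add₀ (by norm_num),
        ← zpow_add₀ (by norm_num)]
      congr 1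
      push_cast
      ring
    · rw [← zpow_natCast, ← zpow_natCast, ← zpow_mul, ← zpow_mul, ← zpow_add₀ (by norm_num)]
      congr 1
      push_cast
      ring
  have h3 := (zpow_le_zpow_iff_right₀ (by norm_num : (1 : ℝ) < 2)).1 h2
  omega

/-- `m` is the minimum of the orders of the nonzero entries of `x`. -/
def IsMo {k : Type*} [Field k] [Algebra k K] {ι : Type*} (P : FF.Place k K) (x : ι → K) (m : ℤ) :
    Prop := (∀ i, x i ≠ 0 → m ≤ P.ord (x i)) ∧ ∃ i, x i ≠ 0 ∧ m = P.ord (x i)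

theorem IsMo.finite {k : Type*} [Field k] [IsAlgClosed k] [Algebra k K] [FF.IsFF k K] {ι : Type*}
    [Finite ι] (x : ι → K) (m : FF.Place k K → ℤ) (h : ∀ P, IsMo P x (m P)) :
    (Function.support m).Finite := by
  refine (Set.finite_iUnion fun i : ι => FF.finite_supp (k := k) (x i)).subset ?_
  intro P hP
  obtain ⟨i, hi, h2⟩ := (h P).2
  refine Set.mem_iUnion.2 ⟨i, ?_⟩
  rw [Set.mem_ofPred_eq, ← h2]
  exact hP

theorem perm4 : ∀ i j k l : Fin 4, i ≠ j → i ≠ k → i ≠ l → j ≠ k → j ≠ l → k ≠ l →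
    ∃ σ : Equiv.Perm (Fin 4), σ 0 = i ∧ σ 1 = j ∧ σ 2 = k ∧ σ 3 = l := by
  intro i j k l h1 h2 h3 h4 h5 h6
  have hb : Function.Bijective (![i, j, k, l] : Fin 4 → Fin 4) := by
    rw [Fintype.bijective_iff_injective_and_card]
    refine ⟨?_, rfl⟩
    intro x y hxy
    fin_cases x <;> fin_cases y <;> first | rfl | (exfalso; simp at hxy; tauto)
  exact ⟨Equiv.ofBijective _ hb, rfl, rfl, rfl, rfl⟩

theorem perm2 (i j : Fin 4) (h : i ≠ j) : ∃ σ : Equiv.Perm (Fin 4), σ 0 = i ∧ σ 1 = j := by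
  obtain ⟨k, l, h1⟩ : ∃ k l : Fin 4, i ≠ k ∧ i ≠ l ∧ j ≠ k ∧ j ≠ l ∧ k ≠ l := by
    revert i j; decide
  obtain ⟨σ, a, b, -, -⟩ := perm4 i j k l h h1.1 h1.2.1 h1.2.2.1 h1.2.2.2.1 h1.2.2.2.2
  exact ⟨σ, a, b⟩

theorem sdist (σ : Equiv.Perm (Fin 4)) (x y : Fin 4) (h : x ≠ y) : σ x ≠ σ y :=
  fun h1 => h (σ.injective h1)

/-- The summed inequality. -/
theorem summed {k : Type*} [Field k] [IsAlgClosed k] [Algebra k K] [FF.IsFF k K]
    {p e : ℕ} [Fact p.Prime] [CharP K p] (hp : p = 3 * e + 1) (he : 2 ≤ e)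
    (a : Fin 4 → K) (z : Fin 4 → Fin 4 → K) (hinj : Function.Injective a)
    (hcube : ∀ i j, (z i j) ^ 3 = a i - a j) (hanti : ∀ i j, z j i = - z i j)
    (s t : K) (hst : ¬ (s = 0 ∧ t = 0)) (mz mt mo : FF.Place k K → ℤ)
    (hmz : ∀ P, IsMo P (fun σ : Equiv.Perm (Fin 4) => z (σ 0) (σ 1)) (mz P))
    (hmt : ∀ P, IsMo P (fun σ : Equiv.Perm (Fin 4) => z (σ 0) (σ 1) ^ 2 * z (σ 2) (σ 3)) (mt P))
    (hmo : ∀ P, IsMo P (fun σ : Equiv.Perm (Fin 4) => (s - t * a (σ 0)) *
      (z (σ 1) (σ 2) ^ 2 * z (σ 2) (σ 3) * z (σ 3) (σ 1))) (mo P)) :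
    -13 * ∑ᶠ P, - mz P ≤ p * (∑ᶠ P, - mz P - ∑ᶠ P, - mt P + ∑ᶠ P, - mo P) := by
  have hz : ∀ i j, i ≠ j → z i j ≠ 0 := by
    intro i j hij h0
    have h := hcube i j
    rw [h0, zero_pow (by norm_num)] at h
    exact hij (hinj (sub_eq_zero.1 h.symm))
  have hu : ¬ (s - t * a 3 = 0 ∧ -t = 0) := by
    rintro ⟨h1, h2⟩
    have h3 : t = 0 := neg_eq_zero.1 h2
    rw [h3, zero_mul, sub_zero] at h1
    exact hst ⟨h1, h3⟩
  obtain ⟨i, hi, hh0⟩ := exists_hh_ne_zero (p := p) hp he (fun x => a x - a 3)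
    (fun x y h => hinj (by simpa using h)) (s - t * a 3) (-t) hu
  have hval : ∀ x, (s - t * a 3) + (-t) * (a x - a 3) = s - t * a x := fun x => by ring
  have hfz := IsMo.finite _ mz hmz
  have hft := IsMo.finite _ mt hmt
  have hfo := IsMo.finite _ mo hmo
  set H := hh (fun x => a x - a 3) p e i (s - t * a 3) (-t) with hH
  set Z := z 0 1 * z 0 2 * z 0 3 * z 1 2 * z 1 3 * z 2 3 with hZ
  have hloc : ∀ P : FF.Place k K, 0 ≤ P.ord H + p * mt P + 2 * P.ord Z +
      (- (p * mo P) + -((p + 7 + 3 * i) * mz P)) := by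
    intro P
    have := local_ord P (p := p) (e := e) hp (by omega) z hanti hz (fun x => a x - a 3)
      (fun i j => by rw [hcube]; ring) (sub_self _) (s - t * a 3) (-t) i hi hh0 (mz P) (mt P) (mo P)
      (fun i j hij => by
        obtain ⟨σ, rfl, rfl⟩ := perm2 i j hij
        exact (hmz P).1 σ (hz _ _ hij))
      (by
        obtain ⟨σ, h1, h2⟩ := (hmz P).2
        exact ⟨σ 0, σ 1, sdist σ 0 1 (by decide), h2⟩)
      (by
        obtain ⟨σ, h1, h2⟩ := (hmt P).2
        exact ⟨σ 0, σ 1, σ 2, σ 3, sdist σ _ _ (by decide), sdist σ _ _ (by decide),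
          sdist σ _ _ (by decide), sdist σ _ _ (by decide), sdist σ _ _ (by decide),
          sdist σ _ _ (by decide), h2.ge⟩)
      (by
        intro i j k l h1 h2 h3 h4 h5 h6 h7
        obtain ⟨σ, rfl, rfl, rfl, rfl⟩ := perm4 i j k l h1 h2 h3 h4 h5 h6
        rw [hval] at h7 ⊢
        exact (hmo P).1 σ (mul_ne_zero h7 (mul_ne_zero (mul_ne_zero (pow_ne_zero 2 (hz _ _ h4))
          (hz _ _ h6)) (hz _ _ h5.symm))))
    rw [← hH, ← hZ] at this
    omega
  have f1 : (Function.support fun P : FF.Place k K => P.ord H).Finite := FF.finite_supp H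
  have f2 : (Function.support fun P : FF.Place k K => 2 * P.ord Z).Finite :=
    (FF.finite_supp (k := k) Z).subset fun P hP => by
      rw [Function.mem_support] at hP
      rw [Set.mem_ofPred_eq]
      intro h0; rw [h0] at hP; simp at hP
  have f3 : (Function.support fun P : FF.Place k K => (p : ℤ) * mt P).Finite :=
    hft.subset fun P hP => by
      rw [Function.mem_support] at hP ⊢
      intro h0; rw [h0] at hP; simp at hP
  have f4 : (Function.support fun P : FF.Place k K => -((p : ℤ) * mo P)).Finite :=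
    hfo.subset fun P hP => by
      rw [Function.mem_support] at hP ⊢
      intro h0; rw [h0] at hP; simp at hP
  have f5 : (Function.support fun P : FF.Place k K => -(((p : ℤ) + 7 + 3 * i) * mz P)).Finite :=
    hfz.subset fun P hP => by
      rw [Function.mem_support] at hP ⊢
      intro h0; rw [h0] at hP; simp at hP
  have hsum := finsum_nonneg hloc
  have f13 : (Function.support fun P : FF.Place k K => P.ord H + p * mt P).Finite :=
    (f1.union f3).subset (Function.support_add _ _)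
  have f132 : (Function.support fun P : FF.Place k K => P.ord H + p * mt P + 2 * P.ord Z).Finite :=
    (f13.union f2).subset (Function.support_add _ _)
  have f45 : (Function.support fun P : FF.Place k K =>
      (- ((p : ℤ) * mo P) + -(((p : ℤ) + 7 + 3 * i) * mz P))).Finite :=
    (f4.union f5).subset (Function.support_add _ _)
  have e1 : ∑ᶠ P : FF.Place k K, P.ord H = 0 := FF.prod_formula H
  have e2 : ∑ᶠ P : FF.Place k K, 2 * P.ord Z = 0 := by
    rw [← mul_finsum, FF.prod_formula, mul_zero]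
  have e3 : ∑ᶠ P : FF.Place k K, (p : ℤ) * mt P = p * ∑ᶠ P, mt P := (mul_finsum _ _).symm
  have e4 : ∑ᶠ P : FF.Place k K, -((p : ℤ) * mo P) = -(p * ∑ᶠ P, mo P) := by
    rw [finsum_neg_distrib, mul_finsum]
  have e5 : ∑ᶠ P : FF.Place k K, -(((p : ℤ) + 7 + 3 * i) * mz P) =
      -((p + 7 + 3 * i) * ∑ᶠ P, mz P) := by
    rw [finsum_neg_distrib, mul_finsum]
  rw [finsum_add_distrib f132 f45, finsum_add_distrib f13 f2, finsum_add_distrib f1 f3,
    finsum_add_distrib f4 f5, e1, e2, e3, e4, e5] at hsum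
  have hz0 : ∑ᶠ P, mz P ≤ 0 := by
    have h1 : 0 ≤ ∑ᶠ P : FF.Place k K, (P.ord (z 0 1) - mz P) := by
      apply finsum_nonneg
      intro P
      exact sub_nonneg.2 ((hmz P).1 (Equiv.refl _) (hz 0 1 (by decide)))
    rw [finsum_sub_distrib (FF.finite_supp _) hfz, FF.prod_formula] at h1
    omega
  rw [finsum_neg_distrib, finsum_neg_distrib, finsum_neg_distrib]
  have hi2 : (i : ℤ) ≤ 2 := by omega
  nlinarith [mul_nonneg (sub_nonneg.2 hi2) (neg_nonneg.2 hz0)]

end Nef
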